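import Pool.Agent.Helper10.CR.Goals2

/-!
# Project CR: the transfer data in case W (packet CR-TW)
-/

universe u v

namespace Pool.Agent.Helper67.CR

open Pool.Agent.Helper10.CR
open Pool.Agent.Helper10.Width Pool.Agent.Helper72.Width Pool.Agent.Helper78.SD
open IsLocalRing

section

variable {R : Type u} [CommRing R] [IsLocalRing R]

theorem mem_of_DW {a b c : R} (h : DW R a b c) :
    a ∈ maximalIdeal R ∧ b ∈ maximalIdeal R ∧ c ∈ maximalIdeal R := by
  have h1 := h.ind b (-a) 0 (by ring)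
  have h2 := h.ind c 0 (-a) (by ring)
  exact ⟨neg_mem_iff.1 h1.2.1, h1.1, h2.1⟩

variable {a b c : R} (hm : a ∈ maximalIdeal R ∧ b ∈ maximalIdeal R ∧ c ∈ maximalIdeal R)

/-- The structure used in case W. -/
noncomputable def strW (X : RS (ResidueField R) 3) :
    Str (ResidueField R) (ResidueField R) (ctxW hm).n X.V where
  ιA := Module.Basis.ofVectorSpaceIndex (ResidueField R) X.V
  ιD := PEmpty
  e := (LinearEquiv.prodUnique).trans
    (Module.Basis.ofVectorSpace (ResidueField R) X.V).repr.symm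
  Wr := (X.Rel : Submodule (ResidueField R) (Fin 3 → X.V))
  γ := 0

theorem strW_e (X : RS (ResidueField R) 3) (q : (strW hm X).ιD →₀ ResidueField R) :
    (strW hm X).e (0, q) = 0 := by
  have h : q = 0 := Subsingleton.elim (α := PEmpty.{u + 1} →₀ ResidueField R) _ _
  rw [h]
  exact map_zero _

theorem chiW (X : RS (ResidueField R) 3) (κ : (strW hm X).ιD →₀ R) :
    (ctxW hm).chi (strW hm X) κ = 0 := by
  refine Prod.ext rfl ?_
  show (0 : R) • κ = 0
  exact zero_smul _ _

theorem sumW (X : RS (ResidueField R) 3) (f : Fin (ctxW hm).n → (ctxW hm).F (strW hm X)) :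
    ∑ j, (ctxW hm).a j • f j = a • f (0 : Fin 3) + b • f (1 : Fin 3) + c • f (2 : Fin 3) :=
  Fin.sum_univ_three (M := (ctxW hm).F (strW hm X)) (fun j : Fin 3 => (ctxW hm).a j • f j)

theorem red_eq_zero (h : DW R a b c) (X : RS (ResidueField R) 3)
    (f : Fin 3 → (ctxW hm).F (strW hm X)) (hf : a • f 0 + b • f 1 + c • f 2 = 0) (j : Fin 3) :
    (ctxW hm).red (strW hm X) (f j) = 0 := by
  have h1 : ∀ i, (f 0).1 i ∈ maximalIdeal R ∧ (f 1).1 i ∈ maximalIdeal R ∧
      (f 2).1 i ∈ maximalIdeal R := by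
    intro i
    apply h.ind
    have h2 := congrArg (fun z : (ctxW hm).F (strW hm X) => z.1 i) hf
    have h3 : a * (f 0).1 i + b * (f 1).1 i + c * (f 2).1 i = 0 := h2
    linear_combination h3
  have h4 : ∀ i, (f j).1 i ∈ maximalIdeal R := by
    intro i
    fin_cases j
    · exact (h1 i).1
    · exact (h1 i).2.1
    · exact (h1 i).2.2
  have h5 : Finsupp.mapRange (ctxW hm).ρ (map_zero _) (f j).1 = 0 := by
    ext i
    rw [Finsupp.mapRange_apply, Finsupp.coe_zero, Pi.zero_apply]
    exact residue_zero_of_mem (h4 i)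
  rw [Ctx.red_apply, h5]
  exact strW_e hm X _

/-- The key equivalence. -/
theorem keyW (h : DW R a b c) (X : RS (ResidueField R) 3)
    (g : Fin 3 → (ctxW hm).F (strW hm X)) :
    a • g 0 + b • g 1 + c • g 2 ∈ (ctxW hm).W (strW hm X) ↔
      (fun j => (ctxW hm).red (strW hm X) (g j)) ∈ X.Rel := by
  constructor
  · rintro ⟨f, κ, hf, hw⟩
    rw [chiW, add_zero, sumW] at hw
    have h1 : ∀ j : Fin 3, (ctxW hm).red (strW hm X) (g j) =
        (ctxW hm).red (strW hm X) (f j) := by
      intro j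
      have h2 := red_eq_zero hm h X (fun j => g j - f j) (by
        have : a • (g 0 - f (0 : Fin 3)) + b • (g 1 - f (1 : Fin 3)) +
            c • (g 2 - f (2 : Fin 3)) = (a • g 0 + b • g 1 + c • g 2) -
              (a • f (0 : Fin 3) + b • f (1 : Fin 3) + c • f (2 : Fin 3)) := by
          simp only [smul_sub]
          abel
        rw [this, hw, sub_self]) j
      rw [map_sub] at h2
      exact sub_eq_zero.1 h2
    have h3 : (fun j => (ctxW hm).red (strW hm X) (g j)) =
        fun j : Fin 3 => (ctxW hm).red (strW hm X) (f j) := funext h1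
    rw [h3]
    have h4 : (fun j : Fin 3 => (ctxW hm).red (strW hm X) (f j)) -
        (0 : ((strW hm X).ιD →₀ ResidueField R) →ₗ[ResidueField R] (Fin 3 → X.V))
          ((ctxW hm).redD κ) ∈ X.Rel := hf
    rw [LinearMap.zero_apply, sub_zero] at h4
    exact h4
  · intro hg
    refine ⟨g, 0, ?_, ?_⟩
    · show (fun j : Fin 3 => (ctxW hm).red (strW hm X) (g j)) -
        (0 : ((strW hm X).ιD →₀ ResidueField R) →ₗ[ResidueField R] (Fin 3 → X.V))
          ((ctxW hm).redD 0) ∈ X.Rel
      rw [LinearMap.zero_apply, sub_zero]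
      exact hg
    · rw [chiW, add_zero]
      exact (sumW hm X g).symm

/-- The condition `b t = 0`. -/
def alW (b : R) : PP R where
  n := 1
  k := 0
  a := fun _ => b
  b := fun _ => Fin.elim0

/-- The condition `a x₀ + b x₁ + c x₂ = 0`. -/
def kaW (a b c : R) : NPP R 3 where
  m := 1
  k := 0
  a := fun _ => ![a, b, c]
  b := fun _ => Fin.elim0

/-- The module of case W. -/
abbrev TT (X : RS (ResidueField R) 3) : Type u :=
  (ctxW hm).F (strW hm X) ⧸ (ctxW hm).W (strW hm X)

theorem key0 (h : DW R a b c) (X : RS (ResidueField R) 3) (hX : PW X)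
    (f : (ctxW hm).F (strW hm X)) :
    (Submodule.Quotient.mk f : TT hm X) ∈ (alW b).sol (TT hm X) ↔
      (ctxW hm).red (strW hm X) f = 0 := by
  have h1 : (Submodule.Quotient.mk f : TT hm X) ∈ (alW b).sol (TT hm X) ↔
      b • (Submodule.Quotient.mk f : TT hm X) = 0 := by
    rw [PP.mem_sol]
    constructor
    · rintro ⟨y, hy⟩
      have h2 : b • (Submodule.Quotient.mk f : TT hm X) +
        ∑ l : Fin 0, (Fin.elim0 l : R) • y l = 0 := hy (0 : Fin 1)
      rwa [Finset.univ_eq_empty, Finset.sum_empty, add_zero] at h2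
    · intro hb
      refine ⟨Fin.elim0, fun i => ?_⟩
      show b • (Submodule.Quotient.mk f : TT hm X) +
        ∑ l : Fin 0, (Fin.elim0 l : R) • (Fin.elim0 l : TT hm X) = 0
      rw [hb, Finset.univ_eq_empty, Finset.sum_empty, add_zero]
  rw [h1, ← Submodule.Quotient.mk_smul, Submodule.Quotient.mk_eq_zero]
  have h3 := keyW hm h X ![0, f, 0]
  have h4 : a • (![0, f, 0] : Fin 3 → (ctxW hm).F (strW hm X)) 0 +
      b • (![0, f, 0] : Fin 3 → (ctxW hm).F (strW hm X)) 1 +
      c • (![0, f, 0] : Fin 3 → (ctxW hm).F (strW hm X)) 2 = b • f := by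
    show a • (0 : (ctxW hm).F (strW hm X)) + b • f + c • (0 : (ctxW hm).F (strW hm X)) = b • f
    rw [smul_zero, smul_zero, zero_add, add_zero]
  rw [h4] at h3
  rw [h3]
  have h5 : (fun j => (ctxW hm).red (strW hm X)
      ((![0, f, 0] : Fin 3 → (ctxW hm).F (strW hm X)) j)) =
      ![0, (ctxW hm).red (strW hm X) f, 0] := by
    ext j
    fin_cases j
    · exact map_zero _
    · rfl
    · exact map_zero _
  rw [h5]
  constructor
  · exact hX _
  · intro h0
    rw [h0]
    have h6 : (![0, 0, 0] : Fin 3 → X.V) = 0 := by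
      ext j
      fin_cases j <;> rfl
    rw [h6]
    exact zero_mem _

theorem key3 (h : DW R a b c) (X : RS (ResidueField R) 3)
    (f : Fin 3 → (ctxW hm).F (strW hm X)) :
    (fun i => (Submodule.Quotient.mk (f i) : TT hm X)) ∈ (kaW a b c).sol (TT hm X) ↔
      (fun i => (ctxW hm).red (strW hm X) (f i)) ∈ X.Rel := by
  have h1 : (fun i => (Submodule.Quotient.mk (f i) : TT hm X)) ∈ (kaW a b c).sol (TT hm X) ↔
      ∑ i, (![a, b, c] : Fin 3 → R) i • (Submodule.Quotient.mk (f i) : TT hm X) = 0 := by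
    constructor
    · rintro ⟨y, hy⟩
      have h2 : ∑ i, (![a, b, c] : Fin 3 → R) i • (Submodule.Quotient.mk (f i) : TT hm X) +
        ∑ l : Fin 0, (Fin.elim0 l : R) • (y l : TT hm X) = 0 := hy (0 : Fin 1)
      have h3 : ∑ l : Fin 0, (Fin.elim0 l : R) • (y l : TT hm X) = 0 := Fin.sum_univ_zero _
      rw [h3, add_zero] at h2
      exact h2
    · intro hb
      refine ⟨Fin.elim0, fun i => ?_⟩
      show ∑ i, (![a, b, c] : Fin 3 → R) i • (Submodule.Quotient.mk (f i) : TT hm X) +
        ∑ l : Fin 0, (Fin.elim0 l : R) • (Fin.elim0 l : TT hm X) = 0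
      rw [hb, Fin.sum_univ_zero, add_zero]
  rw [h1, Fin.sum_univ_three, ← keyW hm h X f]
  show a • (Submodule.Quotient.mk (f 0) : TT hm X) +
    b • (Submodule.Quotient.mk (f 1) : TT hm X) + c • (Submodule.Quotient.mk (f 2) : TT hm X) =
      0 ↔ _
  rw [← Submodule.Quotient.mk_smul, ← Submodule.Quotient.mk_smul,
    ← Submodule.Quotient.mk_smul, ← Submodule.Quotient.mk_add,
    ← Submodule.Quotient.mk_add, Submodule.Quotient.mk_eq_zero]

end

theorem goalTW : GoalTW.{u} := by
  intro hLift hLAW R _ _ a b c h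
  have hm := mem_of_DW h
  refine ⟨fun X => (ctxW hm).tr X.1 (strW hm X.1),
    alW b, kaW a b c, ?_, ?_, ?_⟩
  · rintro ⟨X, hX⟩ t
    obtain ⟨f, rfl⟩ := Submodule.Quotient.mk_surjective _ t
    exact key0 hm h X hX f
  · rintro ⟨X, hX⟩ x
    have hsur : ∀ j, ∃ f : (ctxW hm).F (strW hm X), (Submodule.Quotient.mk f : TT hm X) = x j :=
      fun j => Submodule.Quotient.mk_surjective _ (x j)
    choose f hf using hsur
    have hx : x = fun i => (Submodule.Quotient.mk (f i) : TT hm X) := funext fun i => (hf i).symm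
    rw [hx]
    exact key3 hm h X f
  · intro θ
    obtain ⟨φ, hφ⟩ := hLAW (ResidueField R) 3 θ.n ((ctxW hm).EA θ)
    refine ⟨φ, ?_⟩
    rintro ⟨X, hX⟩ v
    show v ∈ φ.sol X ↔ ∃ t ∈ θ.sol ((ctxW hm).tr X (strW hm X)).T,
      ((ctxW hm).tr X (strW hm X)).π t = v
    rw [hφ X v, hLift R (ResidueField R) R (ResidueField R) (ctxW hm) 3 X (strW hm X) θ v]
    have hq : ∀ (P : IA (ctxW hm).n θ.n → X.V)
        (Q : ID (ctxW hm).n θ.n → (strW hm X).ιD →₀ ResidueField R) (c' : Fin θ.n),
        (fun j => P (Sum.inr (j, c')) + (strW hm X).e (0, Q (Sum.inl (Sum.inr (j, c'))))) -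
          (strW hm X).γ (Q (Sum.inr c')) = fun j => P (Sum.inr (j, c')) := by
      intro P Q c'
      ext j
      rw [Pi.sub_apply, strW_e, add_zero]
      show _ - (0 : X.V) = _
      rw [sub_zero]
    constructor
    · rintro ⟨P, hP, hv, hc⟩
      refine ⟨P, hP, 0, zero_mem _, ?_, fun c' => ?_⟩
      · rw [strW_e, add_zero]
        exact hv
      · exact (iff_of_eq (congrArg (fun z : Fin 3 → X.V => z ∈ X.Rel) (hq P 0 c'))).2 (hc c')
    · rintro ⟨P, hP, Q, hQ, hv, hc⟩
      refine ⟨P, hP, ?_, fun c' => ?_⟩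
      · rw [strW_e, add_zero] at hv
        exact hv
      · exact (iff_of_eq (congrArg (fun z : Fin 3 → X.V => z ∈ X.Rel) (hq P Q c'))).1 (hc c')

end Pool.Agent.Helper67.CR
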