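import Mathlib
import Pool.Agent.Helper88.CR.GoalsA

/-! # Fundamental lemma of the sieve with weights (packet CR-FW, MP_69be96_nt) -/

set_option autoImplicit false

open Finset

open scoped Classical

namespace Pool.Agent.Helper67.CR

open Pool.Agent.Helper88.CR

/-- truncated alternating sum over subsets -/
noncomputable def al (k : ℕ) (x : ℕ → ℝ) (B : Finset ℕ) : ℝ :=
  ∑ A ∈ B.powerset, if A.card ≤ k then (-1) ^ A.card * ∏ p ∈ A, x p else 0

/-- elementary symmetric sum over subsets -/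
noncomputable def es (k : ℕ) (x : ℕ → ℝ) (B : Finset ℕ) : ℝ :=
  ∑ A ∈ B.powerset, if A.card = k then ∏ p ∈ A, x p else 0

variable {x : ℕ → ℝ} {B : Finset ℕ}

theorem al_insert_zero {q : ℕ} (hq : q ∉ B) : al 0 x (insert q B) = al 0 x B := by
  unfold al
  rw [sum_powerset_insert hq]
  rw [sum_eq_zero (s := B.powerset) (f := fun t => if (insert q t).card ≤ 0 then
    (-1) ^ (insert q t).card * ∏ p ∈ insert q t, x p else 0), add_zero]
  intro A hA
  rw [mem_powerset] at hA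
  rw [card_insert_of_notMem (fun h => hq (hA h)), if_neg (by omega)]

theorem al_insert_succ {q : ℕ} (hq : q ∉ B) (k : ℕ) :
    al (k + 1) x (insert q B) = al (k + 1) x B - x q * al k x B := by
  unfold al
  rw [sum_powerset_insert hq, sub_eq_add_neg, ← neg_mul, mul_sum]
  congr 1
  refine sum_congr rfl fun A hA => ?_
  rw [mem_powerset] at hA
  have h1 : q ∉ A := fun h => hq (hA h)
  rw [card_insert_of_notMem h1, prod_insert h1]
  by_cases h2 : A.card ≤ k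
  · rw [if_pos (by omega), if_pos h2, pow_succ]
    ring
  · rw [if_neg (by omega), if_neg h2, mul_zero]

theorem bonf (B : Finset ℕ) : (∀ p ∈ B, 0 ≤ x p) → (∀ p ∈ B, x p ≤ 1) →
    ∀ k : ℕ, 0 ≤ (-1) ^ k * (al k x B - ∏ p ∈ B, (1 - x p)) := by
  induction B using Finset.induction_on with
  | empty =>
    intro _ _ k
    unfold al
    simp
  | insert q B hq ih =>
    intro h0 h1 k
    have h0' : ∀ p ∈ B, 0 ≤ x p := fun p hp => h0 p (mem_insert_of_mem hp)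
    have h1' : ∀ p ∈ B, x p ≤ 1 := fun p hp => h1 p (mem_insert_of_mem hp)
    have hV : 0 ≤ ∏ p ∈ B, (1 - x p) := prod_nonneg fun p hp => by
      have := h1' p hp
      linarith
    have hq0 := h0 q (mem_insert_self _ _)
    have hq1 := h1 q (mem_insert_self _ _)
    rw [prod_insert hq]
    rcases k with _ | k
    · rw [al_insert_zero hq]
      have := ih h0' h1' 0
      rw [pow_zero, one_mul] at this ⊢
      nlinarith [mul_nonneg hq0 hV]
    · rw [al_insert_succ hq]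
      have e1 := ih h0' h1' (k + 1)
      have e2 := mul_nonneg hq0 (ih h0' h1' k)
      have e3 : (-1 : ℝ) ^ (k + 1) * (al (k + 1) x B - x q * al k x B -
          (1 - x q) * ∏ p ∈ B, (1 - x p)) =
          (-1) ^ (k + 1) * (al (k + 1) x B - ∏ p ∈ B, (1 - x p)) +
          x q * ((-1) ^ k * (al k x B - ∏ p ∈ B, (1 - x p))) := by
        rw [pow_succ]
        ring
      rw [e3]
      exact add_nonneg e1 e2

theorem al_succ (k : ℕ) : al (k + 1) x B = al k x B + (-1) ^ (k + 1) * es (k + 1) x B := by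
  unfold al es
  rw [mul_sum, ← sum_add_distrib]
  refine sum_congr rfl fun A _ => ?_
  rcases lt_trichotomy A.card (k + 1) with h | h | h
  · rw [if_pos (by omega), if_pos (by omega), if_neg (by omega)]
    ring
  · rw [if_pos (by omega), if_neg (by omega), if_pos h, h]
    ring
  · rw [if_neg (by omega), if_neg (by omega), if_neg (by omega)]
    ring

theorem bonf_low (h0 : ∀ p ∈ B, 0 ≤ x p) (h1 : ∀ p ∈ B, x p ≤ 1) (b : ℕ) :
    ∏ p ∈ B, (1 - x p) ≤ al (2 * b) x B := by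
  have h := bonf B h0 h1 (2 * b)
  rw [pow_mul, neg_one_sq, one_pow, one_mul] at h
  linarith

theorem bonf_up (h0 : ∀ p ∈ B, 0 ≤ x p) (h1 : ∀ p ∈ B, x p ≤ 1) (b : ℕ) :
    al (2 * b) x B ≤ ∏ p ∈ B, (1 - x p) + es (2 * b + 1) x B := by
  have h := bonf B h0 h1 (2 * b + 1)
  rw [al_succ, pow_succ, pow_mul, neg_one_sq, one_pow, one_mul] at h
  linarith

theorem es_nonneg (h0 : ∀ p ∈ B, 0 ≤ x p) (k : ℕ) : 0 ≤ es k x B := by
  unfold es
  refine sum_nonneg fun A hA => ?_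
  rw [mem_powerset] at hA
  split_ifs
  · exact prod_nonneg fun p hp => h0 p (hA hp)
  · exact le_rfl

theorem es_le (h0 : ∀ p ∈ B, 0 ≤ x p) (k : ℕ) :
    2 ^ k * es k x B ≤ Real.exp (2 * ∑ p ∈ B, x p) := by
  have h1 : 2 ^ k * es k x B ≤ ∏ p ∈ B, (1 + 2 * x p) := by
    rw [prod_one_add]
    unfold es
    rw [mul_sum]
    refine sum_le_sum fun A hA => ?_
    rw [mem_powerset] at hA
    rw [prod_mul_distrib, prod_const]
    split_ifs with h
    · rw [h]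
    · rw [mul_zero]
      exact mul_nonneg (by positivity) (prod_nonneg fun p hp => h0 p (hA hp))
  refine h1.trans ?_
  rw [mul_sum, Real.exp_sum]
  refine prod_le_prod (fun p hp => ?_) (fun p hp => ?_)
  · have := h0 p hp
    linarith
  · have := Real.add_one_le_exp (2 * x p)
    linarith

theorem prod_ge (h0 : ∀ p ∈ B, 0 ≤ x p) (h2 : ∀ p ∈ B, x p ≤ 1 / 2) :
    Real.exp (-(2 * ∑ p ∈ B, x p)) ≤ ∏ p ∈ B, (1 - x p) := by
  rw [mul_sum, ← sum_neg_distrib, Real.exp_sum]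
  refine prod_le_prod (fun p _ => (Real.exp_pos _).le) (fun p hp => ?_)
  have h3 := h0 p hp
  have h4 := h2 p hp
  rw [Real.exp_neg, inv_le_comm₀ (Real.exp_pos _) (by linarith)]
  refine le_trans ?_ (Real.add_one_le_exp (2 * x p))
  rw [inv_le_comm₀ (by linarith) (by linarith), inv_le_iff_one_le_mul₀ (by linarith)]
  nlinarith

/-- product form of the sums over subsets -/
theorem prod_sum {S P₁ B : Finset ℕ} (hS : S ⊆ P₁ ∪ B) (hd : Disjoint P₁ B)
    (f g : Finset ℕ → ℝ) :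
    ∑ A ∈ S.powerset, f (A ∩ P₁) * g (A ∩ B) =
      (∑ A ∈ (S ∩ P₁).powerset, f A) * ∑ A ∈ (S ∩ B).powerset, g A := by
  have hd' : ∀ p, p ∈ P₁ → p ∉ B := fun p h1 h2 => (disjoint_left.1 hd) h1 h2
  rw [sum_mul_sum, ← sum_product']
  refine sum_nbij' (fun A => (A ∩ P₁, A ∩ B)) (fun q => q.1 ∪ q.2) ?_ ?_ ?_ ?_ ?_
  · intro A hA
    rw [mem_powerset] at hA
    rw [mem_product, mem_powerset, mem_powerset]
    exact ⟨inter_subset_inter hA Subset.rfl, inter_subset_inter hA Subset.rfl⟩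
  · rintro ⟨A₁, A₂⟩ hA
    rw [mem_product, mem_powerset, mem_powerset] at hA
    rw [mem_powerset]
    exact union_subset (hA.1.trans inter_subset_left) (hA.2.trans inter_subset_left)
  · intro A hA
    rw [mem_powerset] at hA
    show A ∩ P₁ ∪ A ∩ B = A
    rw [← inter_union_distrib_left, inter_eq_left]
    exact hA.trans hS
  · rintro ⟨A₁, A₂⟩ hA
    rw [mem_product, mem_powerset, mem_powerset] at hA
    have h1 : ∀ p ∈ A₁, p ∈ P₁ := fun p hp => (mem_inter.1 (hA.1 hp)).2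
    have h2 : ∀ p ∈ A₂, p ∈ B := fun p hp => (mem_inter.1 (hA.2 hp)).2
    show ((A₁ ∪ A₂) ∩ P₁, (A₁ ∪ A₂) ∩ B) = (A₁, A₂)
    rw [Prod.mk.injEq]
    constructor
    · ext p
      rw [mem_inter, mem_union]
      constructor
      · rintro ⟨h3 | h3, h4⟩
        · exact h3
        · exact absurd (h2 p h3) (hd' p h4)
      · intro h3
        exact ⟨Or.inl h3, h1 p h3⟩
    · ext p
      rw [mem_inter, mem_union]
      constructor
      · rintro ⟨h3 | h3, h4⟩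
        · exact absurd h4 (hd' p (h1 p h3))
        · exact h3
      · intro h3
        exact ⟨Or.inr h3, h2 p h3⟩
  · intro A _
    rfl

/-- the sieve weights, indexed by sets of primes -/
def SW (z b : ℕ) (g : ℝ) (P : Finset ℕ) : Prop := ∃ l l' : Finset ℕ → ℝ,
  (∀ A, |l A| ≤ 1 ∧ |l' A| ≤ 1) ∧
  (∀ A ⊆ P, l A ≠ 0 ∨ l' A ≠ 0 → ∏ p ∈ A, p ≤ z ^ (4 * b + 6)) ∧
  (∀ S ⊆ P, 0 ≤ ∑ A ∈ S.powerset, l A - (if S = ∅ then 1 else 0) ∧
    ∑ A ∈ S.powerset, l A - (if S = ∅ then 1 else 0) ≤ ∑ A ∈ S.powerset, l' A) ∧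
  ∏ p ∈ P, (1 - 1 / (p : ℝ)) ≤ ∑ A ∈ P.powerset, l A / ((∏ p ∈ A, p : ℕ) : ℝ) ∧
  ∑ A ∈ P.powerset, l A / ((∏ p ∈ A, p : ℕ) : ℝ) ≤ (1 + g) * ∏ p ∈ P, (1 - 1 / (p : ℝ)) ∧
  ∑ A ∈ P.powerset, l' A / ((∏ p ∈ A, p : ℕ) : ℝ) ≤ g * ∏ p ∈ P, (1 - 1 / (p : ℝ))

/-- the coefficients of the truncated inclusion-exclusion -/
noncomputable def TT (b : ℕ) (A : Finset ℕ) : ℝ := if A.card ≤ 2 * b then (-1) ^ A.card else 0

/-- the coefficients of the first omitted term -/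
noncomputable def TU (b : ℕ) (A : Finset ℕ) : ℝ := if A.card = 2 * b + 1 then 1 else 0

theorem TT_abs (b : ℕ) (A : Finset ℕ) : |TT b A| ≤ 1 := by
  unfold TT
  split_ifs
  · rw [abs_pow, abs_neg, abs_one, one_pow]
  · simp

theorem TT_one (b : ℕ) (S : Finset ℕ) : ∑ A ∈ S.powerset, TT b A = al (2 * b) (fun _ => 1) S := by
  unfold TT al
  refine sum_congr rfl fun A _ => ?_
  simp

theorem TU_one (b : ℕ) (S : Finset ℕ) :
    ∑ A ∈ S.powerset, TU b A = es (2 * b + 1) (fun _ => 1) S := by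
  unfold TU es
  refine sum_congr rfl fun A _ => ?_
  simp

theorem inv_prod (A : Finset ℕ) : (1 : ℝ) / ((∏ p ∈ A, p : ℕ) : ℝ) = ∏ p ∈ A, 1 / (p : ℝ) := by
  rw [Nat.cast_prod]
  simp only [one_div]
  rw [prod_inv_distrib]

theorem TT_mean (b : ℕ) (S : Finset ℕ) :
    ∑ A ∈ S.powerset, TT b A / ((∏ p ∈ A, p : ℕ) : ℝ) = al (2 * b) (fun p => 1 / (p : ℝ)) S := by
  unfold TT al
  refine sum_congr rfl fun A _ => ?_
  rw [← mul_one_div, inv_prod]
  split_ifs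
  · rfl
  · rw [zero_mul]

theorem TU_mean (b : ℕ) (S : Finset ℕ) :
    ∑ A ∈ S.powerset, TU b A / ((∏ p ∈ A, p : ℕ) : ℝ) =
      es (2 * b + 1) (fun p => 1 / (p : ℝ)) S := by
  unfold TU es
  refine sum_congr rfl fun A _ => ?_
  rw [← mul_one_div, inv_prod]
  split_ifs
  · rw [one_mul]
  · rw [zero_mul]

theorem prod_split {A P₁ B : Finset ℕ} (hA : A ⊆ P₁ ∪ B) (hd : Disjoint P₁ B) :
    ∏ p ∈ A, p = (∏ p ∈ A ∩ P₁, p) * ∏ p ∈ A ∩ B, p := by
  rw [← prod_union]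
  · rw [← inter_union_distrib_left, inter_eq_left.2 hA]
  · exact disjoint_of_subset_left inter_subset_right
      (disjoint_of_subset_right inter_subset_right hd)

/-- one step -/
theorem step {z z₁ b : ℕ} {g₁ g τ : ℝ} {P₁ B : Finset ℕ} (hz : 1 ≤ z) (hz₁ : z₁ ^ 2 ≤ z)
    (hd : Disjoint P₁ B) (hP₁ : ∀ p ∈ P₁, 2 ≤ p) (hB : ∀ p ∈ B, 2 ≤ p ∧ p ≤ z)
    (hg₁ : 0 ≤ g₁) (hτ0 : 0 ≤ τ)
    (hτ : es (2 * b + 1) (fun p => 1 / (p : ℝ)) B ≤ τ * ∏ p ∈ B, (1 - 1 / (p : ℝ)))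
    (hg : g₁ * (1 + 2 * τ) + τ ≤ g) (h : SW z₁ (b + 1) g₁ P₁) : SW z b g (P₁ ∪ B) := by
  obtain ⟨l, l', ha, hlev, hs, hm1, hm2, hm3⟩ := h
  have hx0 : ∀ p ∈ B, 0 ≤ 1 / (p : ℝ) := fun p _ => by positivity
  have hx1 : ∀ p ∈ B, 1 / (p : ℝ) ≤ 1 := fun p hp => by
    have : (2 : ℝ) ≤ p := by exact_mod_cast (hB p hp).1
    rw [div_le_one (by linarith)]
    linarith
  have hV₁ : 0 ≤ ∏ p ∈ P₁, (1 - 1 / (p : ℝ)) := prod_nonneg fun p hp => by
    have : (2 : ℝ) ≤ p := by exact_mod_cast hP₁ p hp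
    have h1 : 1 / (p : ℝ) ≤ 1 := by
      rw [div_le_one (by linarith)]
      linarith
    linarith
  have hVB : 0 ≤ ∏ p ∈ B, (1 - 1 / (p : ℝ)) := prod_nonneg fun p hp => by
    have := hx1 p hp
    linarith
  have e1 : ∀ S ⊆ P₁ ∪ B, ∑ A ∈ S.powerset, l (A ∩ P₁) * TT b (A ∩ B) =
      (∑ A ∈ (S ∩ P₁).powerset, l A) * al (2 * b) (fun _ => 1) (S ∩ B) := fun S hS => by
    rw [prod_sum hS hd, TT_one]
  have e2 : ∀ S ⊆ P₁ ∪ B, ∑ A ∈ S.powerset,
      (l' (A ∩ P₁) * TT b (A ∩ B) + l (A ∩ P₁) * TU b (A ∩ B)) =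
      (∑ A ∈ (S ∩ P₁).powerset, l' A) * al (2 * b) (fun _ => 1) (S ∩ B) +
      (∑ A ∈ (S ∩ P₁).powerset, l A) * es (2 * b + 1) (fun _ => 1) (S ∩ B) := fun S hS => by
    rw [sum_add_distrib, prod_sum hS hd, prod_sum hS hd, TT_one, TU_one]
  have hPP : (P₁ ∪ B) ∩ P₁ = P₁ := by
    rw [inter_eq_right]
    exact subset_union_left
  have hPB : (P₁ ∪ B) ∩ B = B := by
    rw [inter_eq_right]
    exact subset_union_right
  have hsplit : ∀ (f g : Finset ℕ → ℝ), ∑ A ∈ (P₁ ∪ B).powerset,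
      f (A ∩ P₁) * g (A ∩ B) / ((∏ p ∈ A, p : ℕ) : ℝ) =
      (∑ A ∈ P₁.powerset, f A / ((∏ p ∈ A, p : ℕ) : ℝ)) *
        ∑ A ∈ B.powerset, g A / ((∏ p ∈ A, p : ℕ) : ℝ) := by
    intro f g
    have h1 := prod_sum (S := P₁ ∪ B) (P₁ := P₁) (B := B) Subset.rfl hd
      (fun A => f A / ((∏ p ∈ A, p : ℕ) : ℝ)) (fun A => g A / ((∏ p ∈ A, p : ℕ) : ℝ))
    rw [hPP, hPB] at h1
    rw [← h1]
    refine sum_congr rfl fun A hA => ?_
    rw [mem_powerset] at hA
    rw [prod_split hA hd, Nat.cast_mul, mul_div_mul_comm]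
  have e3 : ∑ A ∈ (P₁ ∪ B).powerset,
      l (A ∩ P₁) * TT b (A ∩ B) / ((∏ p ∈ A, p : ℕ) : ℝ) =
      (∑ A ∈ P₁.powerset, l A / ((∏ p ∈ A, p : ℕ) : ℝ)) *
        al (2 * b) (fun p => 1 / (p : ℝ)) B := by
    rw [hsplit, TT_mean]
  have e4 : ∑ A ∈ (P₁ ∪ B).powerset,
      (l' (A ∩ P₁) * TT b (A ∩ B) + l (A ∩ P₁) * TU b (A ∩ B)) / ((∏ p ∈ A, p : ℕ) : ℝ) =
      (∑ A ∈ P₁.powerset, l' A / ((∏ p ∈ A, p : ℕ) : ℝ)) *
        al (2 * b) (fun p => 1 / (p : ℝ)) B +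
      (∑ A ∈ P₁.powerset, l A / ((∏ p ∈ A, p : ℕ) : ℝ)) *
        es (2 * b + 1) (fun p => 1 / (p : ℝ)) B := by
    rw [← TT_mean, ← TU_mean, ← hsplit, ← hsplit, ← sum_add_distrib]
    exact sum_congr rfl fun A _ => add_div _ _ _
  have hlow := bonf_low hx0 hx1 b
  have hup := bonf_up hx0 hx1 b
  have hes := es_nonneg hx0 (2 * b + 1)
  refine ⟨fun A => l (A ∩ P₁) * TT b (A ∩ B),
    fun A => l' (A ∩ P₁) * TT b (A ∩ B) + l (A ∩ P₁) * TU b (A ∩ B), ?_, ?_, ?_, ?_, ?_, ?_⟩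
  · intro A
    obtain ⟨h1, h2⟩ := ha (A ∩ P₁)
    have h3 := TT_abs b (A ∩ B)
    constructor
    · rw [abs_mul]
      exact mul_le_one₀ h1 (abs_nonneg _) h3
    · show |l' (A ∩ P₁) * TT b (A ∩ B) + l (A ∩ P₁) * TU b (A ∩ B)| ≤ 1
      unfold TU
      split_ifs with h4
      · have h5 : TT b (A ∩ B) = 0 := by
          unfold TT
          rw [if_neg (by omega)]
        rw [h5, mul_zero, zero_add, mul_one]
        exact h1
      · rw [mul_zero, add_zero, abs_mul]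
        exact mul_le_one₀ h2 (abs_nonneg _) h3
  · intro A hA hne
    have hne : l (A ∩ P₁) * TT b (A ∩ B) ≠ 0 ∨
        l' (A ∩ P₁) * TT b (A ∩ B) + l (A ∩ P₁) * TU b (A ∩ B) ≠ 0 := hne
    have h1 : (l (A ∩ P₁) ≠ 0 ∨ l' (A ∩ P₁) ≠ 0) ∧ (A ∩ B).card ≤ 2 * b + 1 := by
      by_contra hcon
      rw [not_and_or, not_or, not_not, not_not] at hcon
      rcases hcon with ⟨h2, h3⟩ | h2
      · rw [h2, h3] at hne
        simp at hne
      · have h3 : TT b (A ∩ B) = 0 := by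
          unfold TT
          rw [if_neg (by omega)]
        have h4 : TU b (A ∩ B) = 0 := by
          unfold TU
          rw [if_neg (by omega)]
        rw [h3, h4] at hne
        simp at hne
    have h2 := hlev (A ∩ P₁) inter_subset_right h1.1
    have h3 : ∏ p ∈ A ∩ B, p ≤ z ^ (2 * b + 1) := by
      refine (prod_le_pow_card (A ∩ B) (fun p => p) z
        (fun p hp => (hB p (mem_inter.1 hp).2).2)).trans ?_
      exact Nat.pow_le_pow_right hz h1.2
    have h4 : z₁ ^ (4 * (b + 1) + 6) ≤ z ^ (2 * b + 5) := by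
      rw [show 4 * (b + 1) + 6 = 2 * (2 * b + 5) by ring, pow_mul]
      exact Nat.pow_le_pow_left hz₁ _
    rw [prod_split hA hd]
    calc _ ≤ z ^ (2 * b + 5) * z ^ (2 * b + 1) := Nat.mul_le_mul (h2.trans h4) h3
      _ = _ := by rw [← pow_add]; congr 1; ring
  · intro S hS
    obtain ⟨h1, h2⟩ := hs (S ∩ P₁) inter_subset_right
    have h3 := bonf_low (B := S ∩ B) (x := fun _ => 1) (fun _ _ => zero_le_one)
      (fun _ _ => le_rfl) b
    have h4 := bonf_up (B := S ∩ B) (x := fun _ => 1) (fun _ _ => zero_le_one)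
      (fun _ _ => le_rfl) b
    have h5 := es_nonneg (B := S ∩ B) (x := fun _ => 1) (fun _ _ => zero_le_one) (2 * b + 1)
    have h6 : ∏ p ∈ S ∩ B, (1 - (fun _ => (1 : ℝ)) p) = if S ∩ B = ∅ then 1 else 0 := by
      split_ifs with h7
      · rw [h7, prod_empty]
      · obtain ⟨p, hp⟩ := nonempty_iff_ne_empty.2 h7
        exact prod_eq_zero hp (by norm_num)
    rw [h6] at h3 h4
    rw [e1 S hS, e2 S hS]
    have h7 : (if S = ∅ then (1 : ℝ) else 0) =
        (if S ∩ P₁ = ∅ then 1 else 0) * (if S ∩ B = ∅ then 1 else 0) := by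
      have h8 : S = ∅ ↔ S ∩ P₁ = ∅ ∧ S ∩ B = ∅ := by
        constructor
        · intro h
          rw [h]
          simp
        · rintro ⟨h9, h10⟩
          rw [← inter_eq_left.2 hS, inter_union_distrib_left, h9, h10, union_empty]
      by_cases h9 : S ∩ P₁ = ∅
      · by_cases h10 : S ∩ B = ∅
        · rw [if_pos h9, if_pos h10, if_pos (h8.2 ⟨h9, h10⟩), mul_one]
        · rw [if_pos h9, if_neg h10, if_neg (fun h => h10 (h8.1 h).2), mul_zero]
      · rw [if_neg h9, if_neg (fun h => h9 (h8.1 h).1), zero_mul]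
    rw [h7]
    have h8 : (0 : ℝ) ≤ if S ∩ P₁ = ∅ then 1 else 0 := by split_ifs <;> norm_num
    have h9 : (0 : ℝ) ≤ if S ∩ B = ∅ then 1 else 0 := by split_ifs <;> norm_num
    generalize (if S ∩ P₁ = ∅ then (1 : ℝ) else 0) = i₁ at *
    generalize (if S ∩ B = ∅ then (1 : ℝ) else 0) = iB at *
    generalize (∑ A ∈ (S ∩ P₁).powerset, l A) = a at *
    generalize (∑ A ∈ (S ∩ P₁).powerset, l' A) = a' at *
    generalize al (2 * b) (fun _ => 1) (S ∩ B) = t at *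
    generalize es (2 * b + 1) (fun _ => 1) (S ∩ B) = t' at *
    have ht : 0 ≤ t := h9.trans h3
    constructor
    · nlinarith [mul_nonneg h1 ht, mul_nonneg h8 (sub_nonneg.2 h3)]
    · have g1 : (a - i₁) * t ≤ a' * t := mul_le_mul_of_nonneg_right h2 ht
      have g2 : i₁ * (t - iB) ≤ i₁ * t' := mul_le_mul_of_nonneg_left (by linarith) h8
      have g3 : i₁ * t' ≤ a * t' := mul_le_mul_of_nonneg_right (by linarith) h5
      nlinarith
  · rw [e3, prod_union hd]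
    exact mul_le_mul hm1 hlow hVB (hV₁.trans hm1)
  · rw [e3, prod_union hd]
    have h1 : al (2 * b) (fun p => 1 / (p : ℝ)) B ≤ (1 + τ) * ∏ p ∈ B, (1 - 1 / (p : ℝ)) := by
      linarith
    calc _ ≤ ((1 + g₁) * ∏ p ∈ P₁, (1 - 1 / (p : ℝ))) *
          ((1 + τ) * ∏ p ∈ B, (1 - 1 / (p : ℝ))) :=
          mul_le_mul hm2 h1 (hVB.trans hlow) (mul_nonneg (by linarith) hV₁)
      _ = ((1 + g₁) * (1 + τ)) * ((∏ p ∈ P₁, (1 - 1 / (p : ℝ))) *
          ∏ p ∈ B, (1 - 1 / (p : ℝ))) := by ring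
      _ ≤ (1 + g) * ((∏ p ∈ P₁, (1 - 1 / (p : ℝ))) * ∏ p ∈ B, (1 - 1 / (p : ℝ))) := by
          refine mul_le_mul_of_nonneg_right ?_ (mul_nonneg hV₁ hVB)
          nlinarith [mul_nonneg hg₁ hτ0]
  · rw [e4, prod_union hd]
    have h1 : al (2 * b) (fun p => 1 / (p : ℝ)) B ≤ (1 + τ) * ∏ p ∈ B, (1 - 1 / (p : ℝ)) := by
      linarith
    have h2 : 0 ≤ al (2 * b) (fun p => 1 / (p : ℝ)) B := hVB.trans hlow
    have h3 : (∑ A ∈ P₁.powerset, l' A / ((∏ p ∈ A, p : ℕ) : ℝ)) *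
        al (2 * b) (fun p => 1 / (p : ℝ)) B ≤ (g₁ * ∏ p ∈ P₁, (1 - 1 / (p : ℝ))) *
          ((1 + τ) * ∏ p ∈ B, (1 - 1 / (p : ℝ))) :=
      (mul_le_mul_of_nonneg_right hm3 h2).trans
        (mul_le_mul_of_nonneg_left h1 (mul_nonneg hg₁ hV₁))
    have h4 : (∑ A ∈ P₁.powerset, l A / ((∏ p ∈ A, p : ℕ) : ℝ)) *
        es (2 * b + 1) (fun p => 1 / (p : ℝ)) B ≤ ((1 + g₁) * ∏ p ∈ P₁, (1 - 1 / (p : ℝ))) *
          (τ * ∏ p ∈ B, (1 - 1 / (p : ℝ))) :=
      mul_le_mul hm2 hτ hes (mul_nonneg (by linarith) hV₁)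
    calc _ ≤ (g₁ * ∏ p ∈ P₁, (1 - 1 / (p : ℝ))) * ((1 + τ) * ∏ p ∈ B, (1 - 1 / (p : ℝ))) +
          ((1 + g₁) * ∏ p ∈ P₁, (1 - 1 / (p : ℝ))) * (τ * ∏ p ∈ B, (1 - 1 / (p : ℝ))) :=
          add_le_add h3 h4
      _ = (g₁ * (1 + 2 * τ) + τ) * ((∏ p ∈ P₁, (1 - 1 / (p : ℝ))) *
          ∏ p ∈ B, (1 - 1 / (p : ℝ))) := by ring
      _ ≤ _ := mul_le_mul_of_nonneg_right hg (mul_nonneg hV₁ hVB)

/-- the error, `K' e^{-b} exp(2 K' e^{-b})` -/
noncomputable def gg (K : ℝ) (b : ℕ) : ℝ :=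
  Real.exp (2 * (K * Real.exp (-(b : ℝ)))) * (K * Real.exp (-(b : ℝ)))

theorem gg_nonneg {K : ℝ} (hK : 0 ≤ K) (b : ℕ) : 0 ≤ gg K b := by
  unfold gg
  positivity

theorem gg_step {K : ℝ} (hK : 0 ≤ K) (b : ℕ) :
    gg K (b + 1) * (1 + 2 * (K * (1 - Real.exp (-1)) * Real.exp (-(b : ℝ)))) +
      K * (1 - Real.exp (-1)) * Real.exp (-(b : ℝ)) ≤ gg K b := by
  have h1 : Real.exp (-((b + 1 : ℕ) : ℝ)) = Real.exp (-(b : ℝ)) * Real.exp (-1) := by
    rw [← Real.exp_add]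
    congr 1
    push_cast
    ring
  unfold gg
  rw [h1]
  set s : ℝ := K * (Real.exp (-(b : ℝ)) * Real.exp (-1)) with hs
  have hs0 : 0 ≤ s := by positivity
  set τ : ℝ := K * (1 - Real.exp (-1)) * Real.exp (-(b : ℝ)) with hτ
  have he : Real.exp (-1) ≤ 1 := by
    rw [← Real.exp_zero]
    exact Real.exp_le_exp.2 (by norm_num)
  have hτ0 : 0 ≤ τ := by
    rw [hτ]
    exact mul_nonneg (mul_nonneg hK (by linarith)) (Real.exp_pos _).le
  have h2 : K * Real.exp (-(b : ℝ)) = s + τ := by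
    rw [hs, hτ]
    ring
  have h20 : Real.exp (2 * (s + τ)) = Real.exp (2 * s) * Real.exp (2 * τ) := by
    rw [mul_add, Real.exp_add]
  rw [h2, h20]
  have h3 := Real.add_one_le_exp (2 * τ)
  have h4 : (1 : ℝ) ≤ Real.exp (2 * s) := Real.one_le_exp (by linarith)
  have h5 : (1 : ℝ) ≤ Real.exp (2 * τ) := Real.one_le_exp (by linarith)
  have h6 : Real.exp (2 * s) * s * (1 + 2 * τ) ≤ Real.exp (2 * s) * s * Real.exp (2 * τ) :=
    mul_le_mul_of_nonneg_left (by linarith) (by positivity)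
  have h7 : τ ≤ Real.exp (2 * s) * Real.exp (2 * τ) * τ := by
    have h8 : 1 ≤ Real.exp (2 * s) * Real.exp (2 * τ) := one_le_mul_of_one_le_of_one_le h4 h5
    nlinarith
  nlinarith

theorem tail_le {C₀ : ℝ} {B : Finset ℕ} (hB : ∀ p ∈ B, 2 ≤ p)
    (hC : ∑ p ∈ B, 1 / (p : ℝ) ≤ C₀) (b : ℕ) :
    es (2 * b + 1) (fun p => 1 / (p : ℝ)) B ≤
      Real.exp (4 * C₀) * Real.exp (-(b : ℝ)) * ∏ p ∈ B, (1 - 1 / (p : ℝ)) := by
  have hx0 : ∀ p ∈ B, 0 ≤ 1 / (p : ℝ) := fun p _ => by positivity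
  have hx2 : ∀ p ∈ B, 1 / (p : ℝ) ≤ 1 / 2 := fun p hp => by
    have : (2 : ℝ) ≤ p := by exact_mod_cast hB p hp
    exact one_div_le_one_div_of_le (by norm_num) this
  have h1 := es_le hx0 (2 * b + 1)
  have h2 := prod_ge hx0 hx2
  have h3 : Real.exp (2 * ∑ p ∈ B, 1 / (p : ℝ)) ≤ Real.exp (2 * C₀) :=
    Real.exp_le_exp.2 (by linarith)
  have h4 : Real.exp (-(2 * C₀)) ≤ ∏ p ∈ B, (1 - 1 / (p : ℝ)) :=
    (Real.exp_le_exp.2 (by linarith)).trans h2
  have h5 : Real.exp (b : ℝ) ≤ 2 ^ (2 * b + 1) := by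
    have h6 : Real.exp 1 ≤ 4 := by
      have := Real.exp_one_lt_d9
      linarith
    calc Real.exp (b : ℝ) = Real.exp 1 ^ b := by
          rw [← Real.exp_nat_mul, mul_one]
      _ ≤ 4 ^ b := pow_le_pow_left₀ (Real.exp_pos _).le h6 b
      _ = 2 ^ (2 * b) := by rw [pow_mul]; norm_num
      _ ≤ 2 ^ (2 * b + 1) := pow_le_pow_right₀ (by norm_num) (by omega)
  have hes := es_nonneg hx0 (2 * b + 1)
  have h6 : Real.exp (b : ℝ) * es (2 * b + 1) (fun p => 1 / (p : ℝ)) B ≤ Real.exp (2 * C₀) :=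
    (mul_le_mul_of_nonneg_right h5 hes).trans (h1.trans h3)
  have h7 : Real.exp (-(b : ℝ)) * Real.exp (b : ℝ) = 1 := by
    rw [← Real.exp_add, neg_add_cancel, Real.exp_zero]
  have h8 : Real.exp (4 * C₀) * Real.exp (-(2 * C₀)) = Real.exp (2 * C₀) := by
    rw [← Real.exp_add]
    congr 1
    ring
  calc es (2 * b + 1) (fun p => 1 / (p : ℝ)) B
      = Real.exp (-(b : ℝ)) * (Real.exp (b : ℝ) * es (2 * b + 1) (fun p => 1 / (p : ℝ)) B) := by
        rw [← mul_assoc, h7, one_mul]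
    _ ≤ Real.exp (-(b : ℝ)) * (Real.exp (4 * C₀) * Real.exp (-(2 * C₀))) := by
        rw [h8]
        exact mul_le_mul_of_nonneg_left h6 (Real.exp_pos _).le
    _ = Real.exp (4 * C₀) * Real.exp (-(b : ℝ)) * Real.exp (-(2 * C₀)) := by ring
    _ ≤ _ := mul_le_mul_of_nonneg_left h4 (by positivity)

theorem main {C₀ : ℝ} (hF : ∀ z : ℕ, 2 ≤ z →
    ∑ p ∈ (Ioc (Nat.sqrt z) z).filter Nat.Prime, 1 / (p : ℝ) ≤ C₀) (z : ℕ) :
    1 ≤ z → ∀ (b : ℕ) (P : Finset ℕ), (∀ p ∈ P, p.Prime ∧ p ≤ z) →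
      SW z b (gg (Real.exp (4 * C₀) / (1 - Real.exp (-1))) b) P := by
  have he : Real.exp (-1) < 1 := by
    rw [← Real.exp_zero]
    exact Real.exp_lt_exp.2 (by norm_num)
  have hK : 0 ≤ Real.exp (4 * C₀) / (1 - Real.exp (-1)) :=
    div_nonneg (Real.exp_pos _).le (by linarith)
  induction z using Nat.strong_induction_on with
  | _ z ih =>
    intro hz b P hP
    rcases Nat.lt_or_ge z 2 with h2 | h2
    · have hP0 : P = ∅ := by
        rw [eq_empty_iff_forall_notMem]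
        intro p hp
        have h3 := (hP p hp).1.two_le
        have h4 := (hP p hp).2
        omega
      subst hP0
      refine ⟨fun A => if A = ∅ then 1 else 0, fun _ => 0, ?_, ?_, ?_, ?_, ?_, ?_⟩
      · intro A
        constructor
        · show |if A = ∅ then (1 : ℝ) else 0| ≤ 1
          split_ifs <;> norm_num
        · simp
      · intro A hA _
        rw [subset_empty] at hA
        rw [hA, prod_empty]
        exact Nat.one_le_pow _ _ (by omega)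
      · intro S hS
        rw [subset_empty] at hS
        subst hS
        simp
      · simp
      · simp only [powerset_empty, sum_singleton, prod_empty, if_true, Nat.cast_one, div_one,
          mul_one]
        have := gg_nonneg hK b
        linarith
      · simp only [powerset_empty, sum_singleton, prod_empty, zero_div, mul_one]
        exact gg_nonneg hK b
    · have hs1 : 1 ≤ Nat.sqrt z := Nat.sqrt_pos.2 (by omega)
      have hs2 : Nat.sqrt z < z := Nat.sqrt_lt_self (by omega)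
      have hs3 : Nat.sqrt z ^ 2 ≤ z := Nat.sqrt_le' z
      have hsplit : P = P.filter (fun p => p ≤ Nat.sqrt z) ∪
          P.filter (fun p => ¬ p ≤ Nat.sqrt z) := (filter_union_filter_not_eq _ _).symm
      have hBC : ∑ p ∈ P.filter (fun p => ¬ p ≤ Nat.sqrt z), 1 / (p : ℝ) ≤ C₀ := by
        refine le_trans (sum_le_sum_of_subset_of_nonneg ?_ (fun _ _ _ => by positivity))
          (hF z h2)
        intro p hp
        rw [mem_filter] at hp ⊢
        obtain ⟨h3, h4⟩ := hP p hp.1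
        rw [mem_Ioc]
        exact ⟨⟨by omega, h4⟩, h3⟩
      rw [hsplit]
      refine step (z₁ := Nat.sqrt z) hz hs3 (disjoint_filter_filter_not _ _ _) ?_ ?_
        (gg_nonneg hK (b + 1)) (τ := Real.exp (4 * C₀) * Real.exp (-(b : ℝ))) (by positivity)
        (tail_le ?_ hBC b) ?_ (ih (Nat.sqrt z) hs2 hs1 (b + 1) _ ?_)
      · intro p hp
        exact (hP p (mem_filter.1 hp).1).1.two_le
      · intro p hp
        obtain ⟨h3, h4⟩ := hP p (mem_filter.1 hp).1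
        exact ⟨h3.two_le, h4⟩
      · intro p hp
        exact (hP p (mem_filter.1 hp).1).1.two_le
      · have h3 := gg_step hK b
        have h4 : Real.exp (4 * C₀) / (1 - Real.exp (-1)) * (1 - Real.exp (-1)) =
            Real.exp (4 * C₀) := div_mul_cancel₀ _ (by linarith)
        rw [h4] at h3
        exact h3
      · intro p hp
        rw [mem_filter] at hp
        exact ⟨(hP p hp.1).1, hp.2⟩

theorem sq_prod {P : Finset ℕ} (hP : ∀ p ∈ P, p.Prime) : Squarefree (∏ p ∈ P, p) := by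
  induction P using Finset.induction_on with
  | empty => rw [prod_empty]; exact squarefree_one
  | insert q B hq ih =>
    rw [prod_insert hq]
    have hq' := hP q (mem_insert_self _ _)
    have hB : ∀ p ∈ B, p.Prime := fun p hp => hP p (mem_insert_of_mem hp)
    rw [Nat.squarefree_mul_iff]
    refine ⟨?_, hq'.prime.squarefree, ih hB⟩
    refine Nat.Coprime.prod_right fun p hp => ?_
    refine (Nat.coprime_primes hq' (hB p hp)).2 ?_
    rintro rfl
    exact hq hp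

/-- sums over divisors and sums over sets of primes -/
theorem sum_conv {P : Finset ℕ} (hP : ∀ p ∈ P, p.Prime) (f : Finset ℕ → ℝ) (g : ℕ → ℝ)
    (N : Finset ℕ) (S : Finset ℕ) (hS : S ⊆ P)
    (h1 : ∀ A ⊆ S, ∏ p ∈ A, p ∈ N)
    (h2 : ∀ d ∈ N, d ∣ ∏ p ∈ P, p → d.primeFactors ⊆ S)
    (h3 : ∀ A ⊆ P, g (∏ p ∈ A, p) = f A)
    (h4 : ∀ d ∈ N, ¬ d ∣ ∏ p ∈ P, p → g d = 0) :
    ∑ d ∈ N, g d = ∑ A ∈ S.powerset, f A := by
  have hsq : Squarefree (∏ p ∈ P, p) := sq_prod hP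
  have e1 : ∑ d ∈ N, g d = ∑ d ∈ N.filter (fun d => d ∣ ∏ p ∈ P, p), g d := by
    rw [sum_filter]
    refine sum_congr rfl fun d hd => ?_
    split_ifs with h
    · rfl
    · exact h4 d hd h
  rw [e1]
  symm
  refine sum_nbij' (fun A => ∏ p ∈ A, p) (fun d => d.primeFactors) ?_ ?_ ?_ ?_ ?_
  · intro A hA
    rw [mem_powerset] at hA
    rw [mem_filter]
    exact ⟨h1 A hA, prod_dvd_prod_of_subset _ _ _ (hA.trans hS)⟩
  · intro d hd
    rw [mem_filter] at hd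
    rw [mem_powerset]
    exact h2 d hd.1 hd.2
  · intro A hA
    rw [mem_powerset] at hA
    exact Nat.primeFactors_prod fun p hp => hP p (hS (hA hp))
  · intro d hd
    rw [mem_filter] at hd
    exact Nat.prod_primeFactors_of_squarefree (hsq.squarefree_of_dvd hd.2)
  · intro A hA
    rw [mem_powerset] at hA
    exact (h3 A (hA.trans hS)).symm

theorem fw (h : StmtF0) : StmtFW := by
  obtain ⟨C₀, _, hF⟩ := h
  have he : Real.exp (-1) < 1 := by
    rw [← Real.exp_zero]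
    exact Real.exp_lt_exp.2 (by norm_num)
  obtain ⟨K, hKd⟩ : ∃ K : ℝ, K = Real.exp (4 * C₀) / (1 - Real.exp (-1)) := ⟨_, rfl⟩
  have hK : 0 < K := by
    rw [hKd]
    exact div_pos (Real.exp_pos _) (by linarith)
  refine ⟨Real.exp (2 * K) * K, by positivity, fun z b hz P hP => ?_⟩
  obtain ⟨L, L', ha, hlev, hs, hm1, hm2, hm3⟩ := main hF z hz b P hP
  rw [← hKd] at hm2 hm3
  have hgg : gg K b ≤ Real.exp (2 * K) * K * Real.exp (-(b : ℝ)) := by
    unfold gg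
    have h1 : Real.exp (-(b : ℝ)) ≤ 1 := Real.exp_le_one_iff.2 (by
      have : (0 : ℝ) ≤ b := Nat.cast_nonneg b
      linarith)
    have h2 : Real.exp (2 * (K * Real.exp (-(b : ℝ)))) ≤ Real.exp (2 * K) :=
      Real.exp_le_exp.2 (by nlinarith)
    rw [mul_assoc]
    exact mul_le_mul_of_nonneg_right h2 (by positivity)
  have hV : 0 ≤ ∏ p ∈ P, (1 - 1 / (p : ℝ)) := prod_nonneg fun p hp => by
    have h2 : (2 : ℝ) ≤ p := by exact_mod_cast (hP p hp).1.two_le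
    have h1 : 1 / (p : ℝ) ≤ 1 := by
      rw [div_le_one (by linarith)]
      linarith
    linarith
  have hprime : ∀ p ∈ P, p.Prime := fun p hp => (hP p hp).1
  have hpp : ∀ A ⊆ P, (∏ p ∈ A, p).primeFactors = A := fun A hA =>
    Nat.primeFactors_prod fun p hp => hprime p (hA hp)
  have hdv : ∀ A ⊆ P, ∏ p ∈ A, p ∣ ∏ p ∈ P, p := fun A hA =>
    prod_dvd_prod_of_subset _ _ _ hA
  have hsq : Squarefree (∏ p ∈ P, p) := sq_prod hprime
  have hpos : ∀ A ⊆ P, 1 ≤ ∏ p ∈ A, p := fun A hA =>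
    Nat.one_le_iff_ne_zero.2 (prod_ne_zero_iff.2 fun p hp => (hprime p (hA hp)).ne_zero)
  have hpf : ∀ d : ℕ, d ∣ ∏ p ∈ P, p → d.primeFactors ⊆ P := by
    intro d hd
    have h1 := Nat.primeFactors_mono hd (by
      have := hpos P Subset.rfl
      omega)
    rwa [hpp P Subset.rfl] at h1
  -- the sum over the divisors of n
  have hdiv : ∀ (F : Finset ℕ → ℝ) (n : ℕ), 1 ≤ n →
      ∑ d ∈ n.divisors, (if d ∣ ∏ p ∈ P, p then F d.primeFactors else 0) =
        ∑ A ∈ (P.filter (fun p => p ∣ n)).powerset, F A := by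
    intro F n hn
    refine sum_conv hprime F _ n.divisors _ (filter_subset _ _) ?_ ?_ ?_ ?_
    · intro A hA
      rw [Nat.mem_divisors]
      refine ⟨?_, by omega⟩
      refine Finset.prod_primes_dvd n (fun p hp => ?_) (fun p hp => (mem_filter.1 (hA hp)).2)
      exact (hprime p (mem_filter.1 (hA hp)).1).prime
    · intro d hd hdP p hp
      rw [Nat.mem_divisors] at hd
      rw [mem_filter]
      exact ⟨hpf d hdP hp, (Nat.dvd_of_mem_primeFactors hp).trans hd.1⟩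
    · intro A hA
      rw [if_pos (hdv A hA), hpp A hA]
    · intro d _ hd
      rw [if_neg hd]
  -- the means
  have hmean : ∀ (F : Finset ℕ → ℝ), (∀ A ⊆ P, F A ≠ 0 → ∏ p ∈ A, p ≤ z ^ (4 * b + 6)) →
      ∑ d ∈ Icc 1 (z ^ (4 * b + 6)), (if d ∣ ∏ p ∈ P, p then F d.primeFactors else 0) / d =
        ∑ A ∈ P.powerset, F A / ((∏ p ∈ A, p : ℕ) : ℝ) := by
    intro F hF
    have hz2 : z ^ (4 * b + 6) ≤ max (z ^ (4 * b + 6)) (∏ p ∈ P, p) := le_max_left _ _
    have hz3 : ∏ p ∈ P, p ≤ max (z ^ (4 * b + 6)) (∏ p ∈ P, p) := le_max_right _ _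
    rw [sum_subset (Icc_subset_Icc (le_refl 1) hz2)]
    · refine sum_conv hprime (fun A => F A / ((∏ p ∈ A, p : ℕ) : ℝ)) _ _ P Subset.rfl ?_ ?_ ?_ ?_
      · intro A hA
        rw [mem_Icc]
        exact ⟨hpos A hA, (Nat.le_of_dvd (hpos P Subset.rfl) (hdv A hA)).trans hz3⟩
      · intro d _ hd
        exact hpf d hd
      · intro A hA
        show (if ∏ p ∈ A, p ∣ ∏ p ∈ P, p then F (∏ p ∈ A, p).primeFactors else 0) /
          ((∏ p ∈ A, p : ℕ) : ℝ) = F A / ((∏ p ∈ A, p : ℕ) : ℝ)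
        rw [if_pos (hdv A hA), hpp A hA]
      · intro d _ hd
        show (if d ∣ ∏ p ∈ P, p then F d.primeFactors else 0) / (d : ℝ) = 0
        rw [if_neg hd, zero_div]
    · intro d hd hd'
      rw [mem_Icc] at hd hd'
      split_ifs with h1
      · by_cases h2 : F d.primeFactors = 0
        · rw [h2, zero_div]
        · exfalso
          have h3 := hF _ (hpf d h1) h2
          rw [Nat.prod_primeFactors_of_squarefree (hsq.squarefree_of_dvd h1)] at h3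
          exact hd' ⟨hd.1, h3⟩
      · rw [zero_div]
  have hS : ∀ n : ℕ, (if ∀ p ∈ P, ¬ p ∣ n then (1 : ℝ) else 0) =
      if P.filter (fun p => p ∣ n) = ∅ then 1 else 0 := by
    intro n
    have h1 : (∀ p ∈ P, ¬ p ∣ n) ↔ P.filter (fun p => p ∣ n) = ∅ := by
      rw [filter_eq_empty_iff]
    by_cases h2 : ∀ p ∈ P, ¬ p ∣ n
    · rw [if_pos h2, if_pos (h1.1 h2)]
    · rw [if_neg h2, if_neg (fun h => h2 (h1.2 h))]
  refine ⟨fun d => if d ∣ ∏ p ∈ P, p then L d.primeFactors else 0,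
    fun d => if d ∣ ∏ p ∈ P, p then L' d.primeFactors else 0, ?_, ?_, ?_, ?_, ?_, ?_⟩
  · intro d
    constructor
    · show |if d ∣ ∏ p ∈ P, p then L d.primeFactors else 0| ≤ 1
      split_ifs
      · exact (ha _).1
      · rw [abs_zero]; exact zero_le_one
    · show |if d ∣ ∏ p ∈ P, p then L' d.primeFactors else 0| ≤ 1
      split_ifs
      · exact (ha _).2
      · rw [abs_zero]; exact zero_le_one
  · intro d hd
    have hd : (if d ∣ ∏ p ∈ P, p then L d.primeFactors else 0) ≠ 0 ∨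
      (if d ∣ ∏ p ∈ P, p then L' d.primeFactors else 0) ≠ 0 := hd
    by_cases h1 : d ∣ ∏ p ∈ P, p
    · rw [if_pos h1, if_pos h1] at hd
      have h3 := hlev _ (hpf d h1) hd
      rw [Nat.prod_primeFactors_of_squarefree (hsq.squarefree_of_dvd h1)] at h3
      exact ⟨h1, h3⟩
    · rw [if_neg h1, if_neg h1] at hd
      simp at hd
  · intro n hn
    rw [hdiv L n hn, hdiv L' n hn, hS n]
    exact hs _ (filter_subset _ _)
  · rw [hmean L (fun A hA h1 => hlev A hA (Or.inl h1))]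
    exact hm1
  · rw [hmean L (fun A hA h1 => hlev A hA (Or.inl h1))]
    refine hm2.trans (mul_le_mul_of_nonneg_right ?_ hV)
    linarith
  · rw [hmean L' (fun A hA h1 => hlev A hA (Or.inr h1))]
    exact hm3.trans (mul_le_mul_of_nonneg_right hgg hV)

end Pool.Agent.Helper67.CR
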