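import Pool.Agent.Helper48.CR.Goals

/-!
# Packet DET (MP_69be96_nt): good starting points
-/

set_option autoImplicit false

open Finset Filter Topology
open Pool.Agent.Helper48.CR

namespace Pool.Agent.Helper67.CR

open Classical in
/-- The combinatorial core: double counting and Markov's inequality. -/
lemma core (r K : ℕ) (b : ℕ → ℕ) (y z0 P N n1 : ℕ) (B X Y : ℝ) (hB : 0 < B) (hz : z0 ≤ r)
    (h1 : ∀ p : ℕ, p.Prime → p ≤ z0 → n1 ≡ b p + 1 [MOD p])
    (h2 : ∀ p : ℕ, p.Prime → p ≤ z0 → p ∣ P)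
    (h3 : r ^ K ≤ n1) (h4 : ∀ t < N, n1 + P * t + y + 1 < (r + 1) ^ K) (h5 : 2 * y + 1 < P)
    (hX : X ≤ (((range N).filter (fun t => ∀ p ∈ pr z0 r, ¬ n1 + P * t ≡ b p [MOD p])).card : ℝ))
    (hY0 : 0 ≤ Y)
    (hY : ∀ i : ℕ, 1 ≤ i → i ≤ y →
      (((range N).filter (fun t => ∀ p ∈ pr z0 r, ¬ n1 + P * t ≡ b p [MOD p] ∧
          ¬ n1 + P * t + i ≡ b p [MOD p])).card : ℝ) ≤ Y) :
    ∃ G : Finset ℕ, (∀ n ∈ G, r ^ K ≤ n ∧ n + y + 1 < (r + 1) ^ K ∧
      (∀ p : ℕ, p ≤ r → p.Prime → ¬ n ≡ b p [MOD p]) ∧ ((sv r b y n).card : ℝ) ≤ B) ∧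
      (∀ n ∈ G, ∀ n' ∈ G, n < n' → n + 2 * y + 1 < n') ∧
      X - (rough z0 (y + 1)).card * Y / B ≤ (G.card : ℝ) := by
  have hPpos : 0 < P := by omega
  set T := (range N).filter (fun t => ∀ p ∈ pr z0 r, ¬ n1 + P * t ≡ b p [MOD p]) with hT
  set I := (Finset.Icc 1 y).filter (fun i => i + 1 ∈ rough z0 (y + 1)) with hI
  have hIc : I.card ≤ (rough z0 (y + 1)).card :=
    Finset.card_le_card_of_injOn (fun i => i + 1)
      (fun i hi => (Finset.mem_filter.mp hi).2) (fun a _ b _ h => by simpa using h)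
  have hn : ∀ t p : ℕ, p.Prime → p ≤ z0 → n1 + P * t ≡ b p + 1 [MOD p] := by
    intro t p hp hpz
    have h0 : P * t ≡ 0 [MOD p] := Nat.modEq_zero_iff_dvd.mpr ((h2 p hp hpz).mul_right t)
    simpa using (h1 p hp hpz).add h0
  have hsv : ∀ t, (sv r b y (n1 + P * t)).card ≤
      (I.filter (fun i => ∀ p ∈ pr z0 r, ¬ n1 + P * t + i ≡ b p [MOD p])).card := by
    intro t
    refine Finset.card_le_card_of_injOn (fun x => x - (n1 + P * t)) ?_ ?_
    · intro x hx
      have hx' := Finset.mem_filter.mp (Finset.mem_coe.mp hx)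
      obtain ⟨hx1, hx3⟩ := hx'
      rw [Finset.mem_Ioc] at hx1
      have hxe : n1 + P * t + (x - (n1 + P * t)) = x := by omega
      rw [Finset.mem_coe, Finset.mem_filter, hI, Finset.mem_filter, Finset.mem_Icc]
      beta_reduce
      refine ⟨⟨⟨by omega, by omega⟩, ?_⟩, ?_⟩
      · rw [rough, Finset.mem_filter, Finset.mem_Icc]
        refine ⟨⟨by omega, by omega⟩, fun p hp hpz hdvd => ?_⟩
        refine hx3 p (hpz.trans hz) hp ?_
        have h0 := (hn t p hp hpz).add_right (x - (n1 + P * t))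
        rw [hxe] at h0
        have h00 : b p + 1 + (x - (n1 + P * t)) ≡ b p + 0 [MOD p] := by
          have : b p + 1 + (x - (n1 + P * t)) = b p + (x - (n1 + P * t) + 1) := by ring
          rw [this]
          exact Nat.ModEq.add_left _ (Nat.modEq_zero_iff_dvd.mpr hdvd)
        exact h0.trans h00
      · intro p hp
        rw [hxe]
        rw [pr, Finset.mem_filter, Finset.mem_Ioc] at hp
        exact hx3 p hp.1.2 hp.2
    · intro x hx x' hx' h
      have hx1 := (Finset.mem_Ioc.mp (Finset.mem_filter.mp (Finset.mem_coe.mp hx)).1)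
      have hx2 := (Finset.mem_Ioc.mp (Finset.mem_filter.mp (Finset.mem_coe.mp hx')).1)
      simp only at h
      omega
  have hsum : (∑ t ∈ T, ((sv r b y (n1 + P * t)).card : ℝ)) ≤ (rough z0 (y + 1)).card * Y := by
    calc (∑ t ∈ T, ((sv r b y (n1 + P * t)).card : ℝ))
        ≤ ∑ t ∈ T,
          ((I.filter (fun i => ∀ p ∈ pr z0 r, ¬ n1 + P * t + i ≡ b p [MOD p])).card : ℝ) :=
          Finset.sum_le_sum fun t _ => by exact_mod_cast hsv t
      _ = ∑ i ∈ I,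
          ((T.filter (fun t => ∀ p ∈ pr z0 r, ¬ n1 + P * t + i ≡ b p [MOD p])).card : ℝ) := by
          simp only [Finset.card_filter, Nat.cast_sum]; exact Finset.sum_comm
      _ ≤ ∑ i ∈ I, Y := by
          refine Finset.sum_le_sum fun i hi => ?_
          have hi' := Finset.mem_Icc.mp (Finset.mem_filter.mp hi).1
          refine le_trans ?_ (hY i hi'.1 hi'.2)
          have hsub : T.filter (fun t => ∀ p ∈ pr z0 r, ¬ n1 + P * t + i ≡ b p [MOD p]) ⊆
              (range N).filter (fun t => ∀ p ∈ pr z0 r, ¬ n1 + P * t ≡ b p [MOD p] ∧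
                ¬ n1 + P * t + i ≡ b p [MOD p]) := by
            intro t ht
            obtain ⟨ht1, ht2⟩ := Finset.mem_filter.mp ht
            obtain ⟨ht3, ht4⟩ := Finset.mem_filter.mp ht1
            exact Finset.mem_filter.mpr ⟨ht3, fun p hp => ⟨ht4 p hp, ht2 p hp⟩⟩
          exact_mod_cast Finset.card_le_card hsub
      _ = I.card * Y := by rw [Finset.sum_const, nsmul_eq_mul]
      _ ≤ (rough z0 (y + 1)).card * Y :=
          mul_le_mul_of_nonneg_right (by exact_mod_cast hIc) hY0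
  set Tg := T.filter (fun t => ((sv r b y (n1 + P * t)).card : ℝ) ≤ B) with hTg
  set Tb := T.filter (fun t => ¬ ((sv r b y (n1 + P * t)).card : ℝ) ≤ B) with hTb
  have hsplit : Tg.card + Tb.card = T.card := Finset.card_filter_add_card_filter_not _
  have hTb' : (Tb.card : ℝ) * B ≤ (rough z0 (y + 1)).card * Y := by
    calc (Tb.card : ℝ) * B = ∑ t ∈ Tb, B := by rw [Finset.sum_const, nsmul_eq_mul]
      _ ≤ ∑ t ∈ Tb, ((sv r b y (n1 + P * t)).card : ℝ) :=
          Finset.sum_le_sum fun t ht => (not_le.mp (Finset.mem_filter.mp ht).2).le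
      _ ≤ ∑ t ∈ T, ((sv r b y (n1 + P * t)).card : ℝ) :=
          Finset.sum_le_sum_of_subset_of_nonneg (Finset.filter_subset _ _)
            fun t _ _ => Nat.cast_nonneg _
      _ ≤ _ := hsum
  have hTb2 : (Tb.card : ℝ) ≤ (rough z0 (y + 1)).card * Y / B := by
    rw [le_div_iff₀ hB]; exact hTb'
  have hinj : Function.Injective (fun t : ℕ => n1 + P * t) := by
    intro t t' h
    simp only at h
    exact Nat.eq_of_mul_eq_mul_left hPpos (by omega)
  refine ⟨Tg.image (fun t => n1 + P * t), ?_, ?_, ?_⟩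
  · intro n hn'
    obtain ⟨t, ht, rfl⟩ := Finset.mem_image.mp hn'
    obtain ⟨ht1, ht2⟩ := Finset.mem_filter.mp ht
    obtain ⟨ht3, ht4⟩ := Finset.mem_filter.mp ht1
    refine ⟨by omega, h4 t (Finset.mem_range.mp ht3), ?_, ht2⟩
    intro p hpr hp
    by_cases hpz : p ≤ z0
    · intro hcon
      have h0 := (hn t p hp hpz).symm.trans hcon
      have h00 : p ∣ 1 := by
        have h6 : b p + 1 ≡ b p + 0 [MOD p] := h0
        exact Nat.modEq_zero_iff_dvd.mp (Nat.ModEq.add_left_cancel' _ h6)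
      exact hp.one_lt.ne' (Nat.dvd_one.mp h00)
    · exact ht4 p (by
        rw [pr, Finset.mem_filter, Finset.mem_Ioc]
        exact ⟨⟨by omega, hpr⟩, hp⟩)
  · intro n hn1 n' hn2 hlt
    obtain ⟨t, ht, rfl⟩ := Finset.mem_image.mp hn1
    obtain ⟨t', ht', rfl⟩ := Finset.mem_image.mp hn2
    have h6 : P * t < P * t' := by omega
    have h7 : t < t' := lt_of_mul_lt_mul_left h6 (Nat.zero_le _)
    have h8 : P * (t + 1) ≤ P * t' := Nat.mul_le_mul_left _ h7
    have h9 : P * (t + 1) = P * t + P := by ring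
    omega
  · rw [Finset.card_image_of_injective _ hinj]
    have h6 : (Tg.card : ℝ) + Tb.card = T.card := by exact_mod_cast hsplit
    linarith

/-- The starting point, by the Chinese remainder theorem. -/
lemma exists_n1 (z0 M : ℕ) (b : ℕ → ℕ) : ∃ n1 : ℕ, M ≤ n1 ∧ n1 < M + primorial z0 ∧
    ∀ p : ℕ, p.Prime → p ≤ z0 → n1 ≡ b p + 1 [MOD p] := by
  have hmem : ∀ p, p ∈ pr 0 z0 ↔ p.Prime ∧ p ≤ z0 := by
    intro p
    rw [pr, Finset.mem_filter, Finset.mem_Ioc]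
    exact ⟨fun h => ⟨h.2, h.1.2⟩, fun h => ⟨⟨h.1.pos, h.2⟩, h.1⟩⟩
  obtain ⟨k, hk⟩ := Nat.chineseRemainderOfFinset (fun p => b p + 1) (fun p => p) (pr 0 z0)
    (fun p hp => ((hmem p).mp hp).1.ne_zero)
    (fun p hp q hq hpq => (Nat.coprime_primes ((hmem p).mp hp).1 ((hmem q).mp hq).1).mpr hpq)
  have hQ := primorial_pos z0
  refine ⟨M + (k + (primorial z0 - 1) * M) % primorial z0, by omega,
    by have := Nat.mod_lt (k + (primorial z0 - 1) * M) hQ; omega, ?_⟩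
  intro p hp hpz
  have hdvd : p ∣ primorial z0 := hp.dvd_primorial_iff.mpr hpz
  have h1 : (k + (primorial z0 - 1) * M) % primorial z0 ≡ k + (primorial z0 - 1) * M
      [MOD p] := (Nat.mod_modEq _ _).of_dvd hdvd
  have h2 : M + (k + (primorial z0 - 1) * M) % primorial z0 ≡
      M + (k + (primorial z0 - 1) * M) [MOD p] := h1.add_left M
  have h3 : M + (k + (primorial z0 - 1) * M) = k + primorial z0 * M := by
    have h4 : primorial z0 * M = (primorial z0 - 1) * M + M := by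
      obtain ⟨q, hq⟩ := Nat.exists_eq_succ_of_ne_zero hQ.ne'
      rw [hq]; simp only [Nat.succ_eq_add_one, Nat.add_sub_cancel]; ring
    rw [h4]; ring
  rw [h3] at h2
  have h5 : primorial z0 * M ≡ 0 [MOD p] := Nat.modEq_zero_iff_dvd.mpr (hdvd.mul_right M)
  have h6 : k + primorial z0 * M ≡ k + 0 [MOD p] := h5.add_left k
  exact h2.trans (h6.trans (hk p ((hmem p).mpr ⟨hp, hpz⟩)))

lemma factor_bounds {p : ℕ} (hp : p.Prime) : 0 < 1 - 1 / (p : ℝ) ∧ 1 - 1 / (p : ℝ) ≤ 1 := by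
  have h2 : (2 : ℝ) ≤ p := by exact_mod_cast hp.two_le
  have h3 : 1 / (p : ℝ) ≤ 1 / 2 := one_div_le_one_div_of_le (by norm_num) h2
  have h4 : 0 < 1 / (p : ℝ) := by positivity
  constructor <;> linarith

lemma prod_pos' (r z : ℕ) : 0 < ∏ p ∈ pr r z, (1 - 1 / (p : ℝ)) :=
  Finset.prod_pos fun _ hp => (factor_bounds (Finset.mem_filter.mp hp).2).1

lemma V_pos (z : ℕ) : 0 < V z := prod_pos' 0 z

lemma V_le_one (z : ℕ) : V z ≤ 1 :=
  Finset.prod_le_one (fun _ hp => (factor_bounds (Finset.mem_filter.mp hp).2).1.le)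
    fun _ hp => (factor_bounds (Finset.mem_filter.mp hp).2).2

lemma V_mul {z0 r : ℕ} (h : z0 ≤ r) : V z0 * ∏ p ∈ pr z0 r, (1 - 1 / (p : ℝ)) = V r := by
  have hd : Disjoint (pr 0 z0) (pr z0 r) := by
    rw [Finset.disjoint_left]
    intro p hp hq
    rw [pr, Finset.mem_filter, Finset.mem_Ioc] at hp hq
    omega
  rw [V, V, ← Finset.prod_union hd]
  congr 1
  ext p
  rw [Finset.mem_union]
  simp only [pr, Finset.mem_filter, Finset.mem_Ioc]
  constructor
  · rintro (h1 | h1)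
    · exact ⟨⟨h1.1.1, h1.1.2.trans h⟩, h1.2⟩
    · exact ⟨⟨h1.2.pos, h1.1.2⟩, h1.2⟩
  · intro h1
    by_cases h2 : p ≤ z0
    · exact Or.inl ⟨⟨h1.1.1, h2⟩, h1.2⟩
    · exact Or.inr ⟨⟨not_le.mp h2, h1.1.2⟩, h1.2⟩

lemma tendsto_log_nat : Tendsto (fun r : ℕ => Real.log r) atTop atTop :=
  Real.tendsto_log_atTop.comp tendsto_natCast_atTop_atTop

/-- Upper bound of the product over the middle primes. -/
lemma asym_Vm (h3 : MERTG) (z : ℕ → ℕ) (hz : Tendsto z atTop atTop)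
    (hzr : ∀ᶠ r in atTop, z r ≤ r) (d : ℝ) (hd : 0 < d) : ∀ᶠ r : ℕ in atTop,
    (∏ p ∈ pr (z r) r, (1 - 1 / (p : ℝ))) * Real.log r ≤ (1 + d) * Real.log (z r) := by
  obtain ⟨h3, -⟩ := h3
  have hg : Real.exp (-Real.eulerMascheroniConstant) ≠ 0 := (Real.exp_pos _).ne'
  have h4 := (h3.div (h3.comp hz) hg)
  rw [div_self hg] at h4
  have h5 : ∀ᶠ r : ℕ in atTop, (V r * Real.log r) / (V (z r) * Real.log (z r)) < 1 + d :=
    h4.eventually_lt_const (by linarith)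
  filter_upwards [h5, hzr, hz.eventually_ge_atTop 2] with r h6 h7 h8
  have h9 : 0 < Real.log (z r) := Real.log_pos (by exact_mod_cast h8)
  have h10 := V_pos (z r)
  rw [div_lt_iff₀ (by positivity), ← V_mul h7] at h6
  have h11 : V (z r) * ((∏ p ∈ pr (z r) r, (1 - 1 / (p : ℝ))) * Real.log r) ≤
      V (z r) * ((1 + d) * Real.log (z r)) := by nlinarith
  exact le_of_mul_le_mul_left h11 h10

/-- Lower bound of the product over the middle primes. -/
lemma asym_V (h3 : MERTG) : ∃ g : ℝ, 0 < g ∧ ∀ᶠ r : ℕ in atTop, g ≤ V r * Real.log r := by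
  obtain ⟨h3, -⟩ := h3
  have hg := Real.exp_pos (-Real.eulerMascheroniConstant)
  exact ⟨Real.exp (-Real.eulerMascheroniConstant) / 2, by linarith,
    (h3.eventually_const_lt (by linarith)).mono fun r h => h.le⟩

lemma sq_le_exp (A α : ℝ) (hα : 0 < α) : ∀ᶠ L : ℝ in atTop, A * L ^ 2 ≤ Real.exp (α * L) := by
  have h1 := (Real.tendsto_exp_div_pow_atTop 2).comp (tendsto_id.const_mul_atTop hα)
  filter_upwards [h1.eventually_ge_atTop (A / α ^ 2), eventually_gt_atTop 0] with L h2 h3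
  simp only [Function.comp, id] at h2
  rw [le_div_iff₀ (by positivity)] at h2
  have h4 : A / α ^ 2 * (α * L) ^ 2 = A * L ^ 2 := by field_simp
  linarith

lemma poly1 (A d : ℝ) (hA : 0 < A) (hd : 0 < d) : ∀ᶠ L : ℝ in atTop,
    A * (L + 1) ^ 2 + 3 ≤ A * (1 + d) * L ^ 2 := by
  filter_upwards [eventually_ge_atTop 1, eventually_ge_atTop ((3 * A + 3) / (A * d))] with L h1 h2
  rw [div_le_iff₀ (by positivity)] at h2
  nlinarith [mul_le_mul_of_nonneg_right h2 (by linarith : 0 ≤ L)]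

lemma poly2 (a : ℝ) (ha : 0 < a) : ∀ᶠ L : ℝ in atTop,
    Real.sqrt L ≤ a * L - 1 ∧ a / 2 * L ≤ a * L - 1 ∧ a * L ≤ L ^ 2 := by
  filter_upwards [eventually_ge_atTop (4 / a ^ 2), eventually_ge_atTop (2 / a),
    eventually_ge_atTop a, eventually_gt_atTop 0] with L h1 h2 h3 h4
  rw [div_le_iff₀ (by positivity)] at h1 h2
  have h5 : Real.sqrt L ≤ a / 2 * L := by
    rw [Real.sqrt_le_iff]
    refine ⟨by positivity, ?_⟩
    nlinarith [mul_le_mul_of_nonneg_right h1 h4.le]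
  refine ⟨by linarith, by linarith, by nlinarith⟩

lemma poly3 (B a : ℝ) (ha : 0 < a) : ∀ᶠ L : ℝ in atTop, B * L ^ 2 < (a / 2 * L) ^ 3 := by
  filter_upwards [eventually_gt_atTop (8 * B / a ^ 3), eventually_gt_atTop 0] with L h1 h2
  rw [div_lt_iff₀ (by positivity)] at h1
  have h3 : 0 < L ^ 2 := by positivity
  nlinarith [mul_lt_mul_of_pos_right h1 h3]

lemma four_le_exp_two : (4 : ℝ) ≤ Real.exp 2 := by
  have h1 : (2 : ℝ) ≤ Real.exp 1 := by have := Real.add_one_le_exp (1 : ℝ); linarith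
  have h2 : Real.exp 2 = Real.exp 1 * Real.exp 1 := by rw [← Real.exp_add]; norm_num
  rw [h2]; nlinarith

/-- Bound of the window length. -/
lemma yr_le (K : ℕ) (c : ℝ) (r : ℕ) (hc : 0 < c) (hr : 1 ≤ r) :
    (yr K c r : ℝ) + 1 ≤ c * (K : ℝ) ^ 2 * (Real.log r + 1) ^ 2 + 3 := by
  have h1 : Real.log (((r + 1) ^ K : ℕ) : ℝ) = K * Real.log ((r : ℝ) + 1) := by
    push_cast
    rw [Real.log_pow]
  have hr' : (1 : ℝ) ≤ r := by exact_mod_cast hr
  have h2 : Real.log ((r : ℝ) + 1) ≤ Real.log r + 1 := by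
    have h3 : Real.log r + 1 = Real.log (r * Real.exp 1) := by
      rw [Real.log_mul (by positivity) (Real.exp_pos 1).ne', Real.log_exp]
    rw [h3]
    refine Real.log_le_log (by positivity) ?_
    have := Real.add_one_le_exp (1 : ℝ)
    nlinarith
  have h0 : 0 ≤ Real.log ((r : ℝ) + 1) := Real.log_nonneg (by linarith)
  have h4 : (⌈c * Real.log (((r + 1) ^ K : ℕ) : ℝ) ^ 2⌉₊ : ℝ) <
      c * Real.log (((r + 1) ^ K : ℕ) : ℝ) ^ 2 + 1 := Nat.ceil_lt_add_one (by positivity)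
  have h5 : c * Real.log (((r + 1) ^ K : ℕ) : ℝ) ^ 2 ≤
      c * (K : ℝ) ^ 2 * (Real.log r + 1) ^ 2 := by
    rw [h1, mul_pow, ← mul_assoc]
    exact mul_le_mul_of_nonneg_left (pow_le_pow_left₀ h0 h2 2) (by positivity)
  rw [yr]
  push_cast at *
  linarith

lemma exists_d (δ : ℝ) (hδ : 0 < δ) : ∃ d : ℝ, 0 < d ∧ d < 1 ∧
    0 < (1 - d) - (1 + d) ^ 4 / (1 + δ) := by
  have hc : Continuous fun d : ℝ => (1 - d) - (1 + d) ^ 4 / (1 + δ) := by fun_prop
  have h0 : 0 < (1 - (0 : ℝ)) - (1 + (0 : ℝ)) ^ 4 / (1 + δ) := by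
    have : (1 : ℝ) / (1 + δ) < 1 := by rw [div_lt_one (by linarith)]; linarith
    simpa using this
  have h1 : ∀ᶠ d : ℝ in 𝓝[>] 0, 0 < (1 - d) - (1 + d) ^ 4 / (1 + δ) :=
    ((hc.tendsto 0).eventually_const_lt h0).filter_mono nhdsWithin_le_nhds
  obtain ⟨d, hd1, hd2⟩ := (h1.and (Ioo_mem_nhdsGT (zero_lt_one (α := ℝ)))).exists
  exact ⟨d, hd2.1, hd2.2, hd1⟩

/-- The modulus. -/
noncomputable def Pm (z0 y : ℕ) : ℕ := primorial z0 * 2 ^ (Nat.log 2 (2 * y + 1) + 1)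

lemma Pm_gt (z0 y : ℕ) : 2 * y + 1 < Pm z0 y :=
  (Nat.lt_pow_succ_log_self (by norm_num) _).trans_le
    (Nat.le_mul_of_pos_left _ (primorial_pos z0))

lemma primorial_le_Pm (z0 y : ℕ) : primorial z0 ≤ Pm z0 y :=
  Nat.le_mul_of_pos_right _ (by positivity)

lemma Pm_le (z0 y : ℕ) (a L : ℝ) (hz : (z0 : ℝ) ≤ a * L) :
    (Pm z0 y : ℝ) ≤ Real.exp (2 * a * L) * (4 * ((y : ℝ) + 1)) := by
  have h1 : 2 ^ (Nat.log 2 (2 * y + 1)) ≤ 2 * y + 1 := Nat.pow_log_le_self 2 (by omega)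
  have h2 : (2 : ℝ) ^ (Nat.log 2 (2 * y + 1)) ≤ 2 * y + 1 := by exact_mod_cast h1
  have h3 : (primorial z0 : ℝ) ≤ 4 ^ z0 := by exact_mod_cast primorial_le_four_pow z0
  have h4 : (4 : ℝ) ^ z0 ≤ Real.exp (2 * a * L) := by
    calc (4 : ℝ) ^ z0 ≤ (Real.exp 2) ^ z0 := pow_le_pow_left₀ (by norm_num) four_le_exp_two _
      _ = Real.exp (z0 * 2) := by rw [← Real.exp_nat_mul]
      _ ≤ _ := Real.exp_le_exp.mpr (by nlinarith)
  have hy : (0 : ℝ) ≤ y := Nat.cast_nonneg y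
  have h5 : (2 : ℝ) ^ (Nat.log 2 (2 * y + 1)) * 2 ≤ 4 * ((y : ℝ) + 1) := by linarith
  unfold Pm
  push_cast
  rw [pow_succ]
  exact mul_le_mul (h3.trans h4) h5 (by positivity) (Real.exp_pos _).le

lemma Pm_dvd {z0 y p : ℕ} (hp : p.Prime) (hpz : p ≤ z0) : p ∣ Pm z0 y :=
  (hp.dvd_primorial_iff.mpr hpz).mul_right _

lemma Pm_not_dvd {z0 y r p : ℕ} (hz : 2 ≤ z0) (hp : p ∈ pr z0 r) : ¬ p ∣ Pm z0 y := by
  rw [pr, Finset.mem_filter, Finset.mem_Ioc] at hp
  intro h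
  rcases (hp.2.dvd_mul).mp h with h1 | h1
  · have := hp.2.dvd_primorial_iff.mp h1; omega
  · have := (Nat.prime_dvd_prime_iff_eq hp.2 Nat.prime_two).mp (hp.2.dvd_of_dvd_pow h1); omega

lemma N_facts (r K P y n1 : ℕ) (hK : 1 ≤ K) (hP : 2 * y + 1 < P) (hn1 : n1 < r ^ K + P)
    (h4P : (4 : ℝ) * P ≤ (r : ℝ) ^ (K - 1)) :
    (∀ t < ((r + 1) ^ K - r ^ K - P - y - 2) / P, n1 + P * t + y + 1 < (r + 1) ^ K) ∧
    (r : ℝ) ^ (K - 1) / (4 * P) ≤ ((((r + 1) ^ K - r ^ K - P - y - 2) / P : ℕ) : ℝ) := by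
  set X := (r + 1) ^ K - r ^ K - P - y - 2 with hX
  have hPpos : 0 < P := by omega
  constructor
  · intro t ht
    have h1 : P * (t + 1) ≤ X := (Nat.mul_le_mul_left P ht).trans (Nat.mul_div_le X P)
    have h2 : P * (t + 1) = P * t + P := by ring
    omega
  · have h1 : X < P * (X / P + 1) := Nat.lt_mul_div_succ X hPpos
    have h2 : r ^ (K - 1) + r ^ K ≤ (r + 1) ^ K := by
      obtain ⟨k, rfl⟩ : ∃ k, K = k + 1 := ⟨K - 1, by omega⟩
      have h3 := Nat.pow_le_pow_left (Nat.le_succ r) k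
      rw [Nat.add_sub_cancel, pow_succ (r + 1) k, pow_succ r k]
      simp only [Nat.succ_eq_add_one] at h3
      nlinarith
    have h3 : r ^ (K - 1) ≤ X + P + y + 2 := by omega
    have h4 : (r : ℝ) ^ (K - 1) ≤ X + P + y + 2 := by exact_mod_cast h3
    have h5 : (X : ℝ) < P * (((X / P : ℕ) : ℝ) + 1) := by exact_mod_cast h1
    have h6 : (y : ℝ) * 2 + 1 + 1 ≤ P := by exact_mod_cast (by omega : y * 2 + 1 + 1 ≤ P)
    have hP' : (0 : ℝ) < P := by exact_mod_cast hPpos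
    have hy : (0 : ℝ) ≤ y := Nat.cast_nonneg y
    rw [div_le_iff₀ (by positivity)]
    have h7 : (P : ℝ) * (((X / P : ℕ) : ℝ) + 1) = P * ((X / P : ℕ) : ℝ) + P := by ring
    have h8 : ((X / P : ℕ) : ℝ) * (4 * P) = 4 * (P * ((X / P : ℕ) : ℝ)) := by ring
    rw [h8]
    linarith

/-- DET -/
theorem det (h1 : ROUGHG) (h2 : MIDG) (h3 : MERTG) : DETG := by
  intro δ hδ
  obtain ⟨d, hd0, hd1, hκ⟩ := exists_d δ hδ
  set κ := (1 - d) - (1 + d) ^ 4 / (1 + δ) with hκdef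
  obtain ⟨K', hK'⟩ := h2 d hd0
  refine ⟨2 * K' + 8, fun K hK η hη hη' c hc => ?_⟩
  obtain ⟨g, hg, hgV⟩ := asym_V h3
  have hK8 : (2 : ℝ) * K' + 8 ≤ K := by exact_mod_cast hK
  have hK'0 : (0 : ℝ) ≤ K' := Nat.cast_nonneg _
  have hKpos : (0 : ℝ) < K := by linarith
  set a := η * K with ha
  have ha0 : 0 < a := mul_pos hη hKpos
  have haK' : a ≤ K / 32 := by
    have h4 := mul_le_mul_of_nonneg_right hη' hKpos.le
    rw [ha]; linarith
  have haK : a ≤ K := by linarith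
  have hs1 : 1 ≤ ((K : ℝ) - 1) - (2 * a + 1 / 4) := by linarith
  have hs2 : 1 ≤ ((K : ℝ) - 1) - K' - (2 * a + 1 / 4) := by linarith
  have hz0t : Tendsto (fun r : ℕ => ⌊a * Real.log r⌋₊) atTop atTop :=
    tendsto_nat_floor_atTop.comp (tendsto_log_nat.const_mul_atTop ha0)
  have hR := (tendsto_log_nat.const_mul_atTop hKpos).eventually
    (h1 (c * (1 + d)) (η / 2) d (by positivity) (by positivity) hd0)
  have hzr : ∀ᶠ r : ℕ in atTop, ⌊a * Real.log r⌋₊ ≤ r := by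
    filter_upwards [tendsto_log_nat.eventually (sq_le_exp 1 1 one_pos),
      tendsto_log_nat.eventually (poly2 a ha0), eventually_gt_atTop 0] with r h4 h5 h6
    have h7 : (0 : ℝ) < r := by exact_mod_cast h6
    rw [one_mul, one_mul, Real.exp_log h7] at h4
    exact Nat.floor_le_of_le (h5.2.2.trans h4)
  have hVm := asym_Vm h3 _ hz0t hzr d hd0
  filter_upwards [hR, hK', hVm, hgV, hzr, eventually_ge_atTop 1,
    tendsto_log_nat.eventually (poly1 (c * (K : ℝ) ^ 2) d (by positivity) hd0),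
    tendsto_log_nat.eventually (poly2 a ha0),
    tendsto_log_nat.eventually (poly3 (c * (1 + d) * (K : ℝ) ^ 2) a ha0),
    tendsto_log_nat.eventually (sq_le_exp (4 * (c * (1 + d) * (K : ℝ) ^ 2)) (1 / 4) (by norm_num)),
    tendsto_log_nat.eventually (sq_le_exp (4 / (κ * g)) (3 / 4) (by norm_num)),
    tendsto_log_nat.eventually_ge_atTop 4]
    with r hR hM hVm hgV hzr hr1 hp1 hp2 hp3 hp5 hp6 hL4 b
  set L := Real.log r with hLdef
  have hr0 : (0 : ℝ) < r := by exact_mod_cast hr1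
  have hρ : (r : ℝ) = Real.exp L := (Real.exp_log hr0).symm
  have hL0 : 0 < L := by linarith
  set z0 := ⌊a * L⌋₊ with hz0
  set y := yr K c r with hy
  have haL : 0 ≤ a * L := by positivity
  have hz0le : (z0 : ℝ) ≤ a * L := Nat.floor_le haL
  have hz0gt : a * L - 1 ≤ z0 := (Nat.sub_one_lt_floor (a * L)).le
  -- window
  have hyb : (y : ℝ) + 1 ≤ c * (1 + d) * (K * L) ^ 2 := by
    have h4 := yr_le K c r hc hr1
    rw [← hy, ← hLdef] at h4
    have h5 : c * (K : ℝ) ^ 2 * (1 + d) * L ^ 2 = c * (1 + d) * (K * L) ^ 2 := by ring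
    linarith
  have hsq : 2 ≤ Real.sqrt L := by
    rw [show (2 : ℝ) = Real.sqrt 4 by
      rw [show (4 : ℝ) = 2 ^ 2 by norm_num, Real.sqrt_sq (by norm_num)]]
    exact Real.sqrt_le_sqrt hL4
  have hz2 : 2 ≤ z0 := by
    have : (2 : ℝ) ≤ z0 := by linarith [hp2.1]
    exact_mod_cast this
  have hz3 : y < z0 ^ 3 := by
    have h4 : (y : ℝ) < (z0 : ℝ) ^ 3 := by
      calc (y : ℝ) < c * (1 + d) * (K * L) ^ 2 := by linarith
        _ = c * (1 + d) * (K : ℝ) ^ 2 * L ^ 2 := by ring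
        _ < (a / 2 * L) ^ 3 := hp3
        _ ≤ (z0 : ℝ) ^ 3 := pow_le_pow_left₀ (by positivity) (by linarith [hp2.2.1]) 3
    exact_mod_cast h4
  -- the modulus
  set P := Pm z0 y with hP
  have hPgt : 2 * y + 1 < P := Pm_gt z0 y
  have hPpos : (0 : ℝ) < P := by exact_mod_cast (by omega : 0 < P)
  have hPle : (P : ℝ) ≤ Real.exp (2 * a * L) * Real.exp (1 / 4 * L) := by
    refine (Pm_le z0 y a L hz0le).trans (mul_le_mul_of_nonneg_left ?_ (Real.exp_pos _).le)
    have h5 : 4 * (c * (1 + d) * (K : ℝ) ^ 2) * L ^ 2 = 4 * (c * (1 + d) * (K * L) ^ 2) := by ring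
    linarith
  have hPle' : (P : ℝ) ≤ Real.exp ((2 * a + 1 / 4) * L) := by
    rw [← Real.exp_add] at hPle
    have h5 : 2 * a * L + 1 / 4 * L = (2 * a + 1 / 4) * L := by ring
    rwa [h5] at hPle
  have hK1 : 1 ≤ K := by omega
  have hρK : (r : ℝ) ^ (K - 1) = Real.exp ((K - 1) * L) := by
    rw [hρ, ← Real.exp_nat_mul, Nat.cast_sub hK1, Nat.cast_one]
  have h4P : (4 : ℝ) * P ≤ (r : ℝ) ^ (K - 1) := by
    rw [hρK]
    calc (4 : ℝ) * P ≤ Real.exp 2 * Real.exp ((2 * a + 1 / 4) * L) :=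
          mul_le_mul four_le_exp_two hPle' hPpos.le (Real.exp_pos _).le
      _ = Real.exp (2 + (2 * a + 1 / 4) * L) := (Real.exp_add _ _).symm
      _ ≤ Real.exp ((K - 1) * L) := Real.exp_le_exp.mpr (by
          have h5 := mul_le_mul_of_nonneg_right hs1 hL0.le
          linarith)
  obtain ⟨n1, hn1, hn1', hcrt⟩ := exists_n1 z0 (r ^ K) b
  obtain ⟨hN1, hN2⟩ := N_facts r K P y n1 hK1 hPgt
    (hn1'.trans_le (Nat.add_le_add_left (primorial_le_Pm z0 y) _)) h4P
  set N := ((r + 1) ^ K - r ^ K - P - y - 2) / P with hNdef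
  have hNK : r ^ K' ≤ N := by
    have h5 : ((r : ℝ) ^ K') ≤ N := by
      refine le_trans ?_ hN2
      rw [le_div_iff₀ (by positivity), hρK]
      have h6 : (r : ℝ) ^ K' = Real.exp (K' * L) := by rw [hρ, ← Real.exp_nat_mul]
      rw [h6]
      calc Real.exp (K' * L) * (4 * P)
          ≤ Real.exp (K' * L) * (Real.exp 2 * Real.exp ((2 * a + 1 / 4) * L)) :=
            mul_le_mul_of_nonneg_left (mul_le_mul four_le_exp_two hPle' hPpos.le
              (Real.exp_pos _).le) (Real.exp_pos _).le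
        _ = Real.exp (K' * L + (2 + (2 * a + 1 / 4) * L)) := by
            rw [← Real.exp_add, ← Real.exp_add]
        _ ≤ Real.exp ((K - 1) * L) := Real.exp_le_exp.mpr (by
            have h5 := mul_le_mul_of_nonneg_right hs2 hL0.le
            linarith)
    exact_mod_cast h5
  obtain ⟨hM1, hM2⟩ := hM z0 (by linarith [hp2.1]) (by linarith [hp2.2.2]) P n1 N
    (fun p hp => Pm_not_dvd hz2 hp) hNK b
  set Vm := ∏ p ∈ pr z0 r, (1 - 1 / (p : ℝ)) with hVmdef
  have hVm0 : 0 < Vm := prod_pos' z0 r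
  have hN0 : (0 : ℝ) ≤ N := Nat.cast_nonneg _
  set S := c * (K : ℝ) ^ 2 * L / 2 with hS
  have hS0 : 0 < S := by positivity
  obtain ⟨G, hG1, hG2, hG3⟩ := core r K b y z0 P N n1 ((1 + δ) * S) _ ((1 + d) * (N * Vm ^ 2))
    (by positivity) hzr hcrt (fun p hp hpz => Pm_dvd hp hpz) hn1 hN1 hPgt hM1 (by positivity)
    (fun i hi1 hi2 => hM2 i hi1 (hi2.trans_lt hz3))
  refine ⟨G, fun n hn => ?_, hG2, ?_⟩
  · obtain ⟨hn1, hn2, hn3, hn4⟩ := hG1 n hn
    exact ⟨hn1, hn2, hn3, Nat.le_floor hn4⟩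
  -- the count
  have hRb := hR (y + 1) z0 (by push_cast; exact hyb) (by
    have h5 : η / 2 * (K * L) = a / 2 * L := by rw [ha]; ring
    rw [h5]; linarith [hp2.2.1])
  set Rc : ℝ := ((rough z0 (y + 1)).card : ℝ) with hRc
  have hu1 : 1 < K * L := by
    have h5 : (8 : ℝ) * 4 ≤ K * L := mul_le_mul (by linarith) hL4 (by norm_num) hKpos.le
    linarith
  have hlogu : 0 < Real.log (K * L) := Real.log_pos hu1
  have hlogz : Real.log z0 ≤ Real.log (K * L) := by
    refine Real.log_le_log (by exact_mod_cast (by omega : 0 < z0)) ?_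
    exact hz0le.trans (mul_le_mul_of_nonneg_right haK hL0.le)
  have hVmL : Vm * L ≤ (1 + d) * Real.log (K * L) :=
    hVm.trans (mul_le_mul_of_nonneg_left hlogz (by linarith))
  have hRV : Rc * Vm ≤ (1 + d) ^ 3 * S := by
    have h5 : Rc * (2 * Real.log (K * L)) ≤ (1 + d) ^ 2 * c * (K * L) ^ 2 := by
      have h6 : (1 + d) * (c * (1 + d) * (K * L) ^ 2 / (2 * Real.log (K * L))) *
          (2 * Real.log (K * L)) = (1 + d) ^ 2 * c * (K * L) ^ 2 := by
        field_simp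
      rw [← h6]
      exact mul_le_mul_of_nonneg_right hRb (by positivity)
    have hRc0 : 0 ≤ Rc := Nat.cast_nonneg _
    have h7 : (Rc * (2 * Real.log (K * L))) * (Vm * L) ≤
        ((1 + d) ^ 2 * c * (K * L) ^ 2) * ((1 + d) * Real.log (K * L)) :=
      mul_le_mul h5 hVmL (by positivity) (by positivity)
    have h8 : (2 * Real.log (K * L) * L) * (Rc * Vm) ≤
        (2 * Real.log (K * L) * L) * ((1 + d) ^ 3 * S) := by
      have h9 : (2 * Real.log (K * L) * L) * ((1 + d) ^ 3 * S) =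
          ((1 + d) ^ 2 * c * (K * L) ^ 2) * ((1 + d) * Real.log (K * L)) := by
        rw [hS]; ring
      rw [h9]
      calc (2 * Real.log (K * L) * L) * (Rc * Vm)
          = (Rc * (2 * Real.log (K * L))) * (Vm * L) := by ring
        _ ≤ _ := h7
    exact le_of_mul_le_mul_left h8 (by positivity)
  have hcount : κ * (N * Vm) ≤ (G.card : ℝ) := by
    refine le_trans ?_ hG3
    have h5 : Rc * ((1 + d) * (N * Vm ^ 2)) / ((1 + δ) * S) ≤ (1 + d) ^ 4 / (1 + δ) * (N * Vm) := by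
      rw [div_le_iff₀ (by positivity)]
      have h6 : (1 + d) ^ 4 / (1 + δ) * (N * Vm) * ((1 + δ) * S) =
          ((1 + d) * (N * Vm)) * ((1 + d) ^ 3 * S) := by
        field_simp
      rw [h6]
      calc Rc * ((1 + d) * (N * Vm ^ 2)) = ((1 + d) * (N * Vm)) * (Rc * Vm) := by ring
        _ ≤ _ := mul_le_mul_of_nonneg_left hRV (by positivity)
    rw [hκdef]
    linarith
  refine le_trans ?_ hcount
  -- the final estimate
  have hVmg : g / L ≤ Vm := by
    rw [div_le_iff₀ hL0]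
    refine hgV.trans (mul_le_mul_of_nonneg_right ?_ hL0.le)
    rw [← V_mul hzr]
    exact mul_le_of_le_one_left hVm0.le (V_le_one z0)
  have hNV : (r : ℝ) ^ (K - 1) / (4 * P) * (g / L) ≤ N * Vm :=
    mul_le_mul hN2 hVmg (by positivity) hN0
  have hfin : (r : ℝ) ^ ((1 - 2 * η) * K - 2) ≤ κ * ((r : ℝ) ^ (K - 1) / (4 * P) * (g / L)) := by
    have h5 : (r : ℝ) ^ ((1 - 2 * η) * K - 2) = Real.exp (L * ((1 - 2 * η) * K - 2)) :=
      Real.rpow_def_of_pos hr0 _
    have h6 : κ * ((r : ℝ) ^ (K - 1) / (4 * P) * (g / L)) =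
        κ * g * Real.exp ((K - 1) * L) / (4 * P * L) := by
      rw [hρK]; field_simp
    rw [h5, h6, le_div_iff₀ (by positivity)]
    have h7 : 4 / (κ * g) * L ^ 2 ≤ Real.exp (3 / 4 * L) := hp6
    have h8 : 4 * L ≤ κ * g * Real.exp (3 / 4 * L) := by
      have h9 : 4 * L ^ 2 ≤ κ * g * Real.exp (3 / 4 * L) := by
        have h10 : κ * g * (4 / (κ * g) * L ^ 2) = 4 * L ^ 2 := by field_simp
        rw [← h10]
        exact mul_le_mul_of_nonneg_left h7 (by positivity)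
      have h11 : L * 1 ≤ L * L := mul_le_mul_of_nonneg_left (by linarith) hL0.le
      have h12 : L ^ 2 = L * L := sq L
      linarith
    calc Real.exp (L * ((1 - 2 * η) * K - 2)) * (4 * P * L)
        = (Real.exp (L * ((1 - 2 * η) * K - 2)) * P) * (4 * L) := by ring
      _ ≤ (Real.exp (L * ((1 - 2 * η) * K - 2)) * Real.exp ((2 * a + 1 / 4) * L)) *
          (κ * g * Real.exp (3 / 4 * L)) :=
          mul_le_mul (mul_le_mul_of_nonneg_left hPle' (Real.exp_pos _).le) h8 (by positivity)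
            (by positivity)
      _ = κ * g * (Real.exp (L * ((1 - 2 * η) * K - 2)) * Real.exp ((2 * a + 1 / 4) * L) *
          Real.exp (3 / 4 * L)) := by ring
      _ = κ * g * Real.exp ((K - 1) * L) := by
          rw [← Real.exp_add, ← Real.exp_add]
          congr 2
          rw [ha]; ring
  exact hfin.trans (mul_le_mul_of_nonneg_left hNV hκ.le)

end Pool.Agent.Helper67.CR
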